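import Mathlib

set_option autoImplicit false

namespace Pool.Agent.H24.GL

open Finset

variable {ι : Type}

/-- In every plane `X = const` the set `S` is a strictly increasing chain in `(Y, Z)`. -/
def Pl (S : Finset ι) (X Y Z : ι → ℕ) : Prop :=
  ∀ s ∈ S, ∀ t ∈ S, s ≠ t → X s = X t → (Y s < Y t ∧ Z s < Z t) ∨ (Y t < Y s ∧ Z t < Z s)

/-- Pairwise comparable set, with the three coordinates given as functions. -/
def CS (S : Finset ι) (X Y Z : ι → ℕ) : Prop :=
  Pl S X Y Z ∧ Pl S Y Z X ∧ Pl S Z X Y

/-- number of values of a coordinate on `S` -/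
def nv (S : Finset ι) (X : ι → ℕ) : ℕ := (S.image X).card

theorem Pl.mono {S T : Finset ι} {X Y Z : ι → ℕ} (h : Pl S X Y Z) (hT : T ⊆ S) : Pl T X Y Z :=
  fun s hs t ht => h s (hT hs) t (hT ht)

theorem CS.mono {S T : Finset ι} {X Y Z : ι → ℕ} (h : CS S X Y Z) (hT : T ⊆ S) : CS T X Y Z :=
  ⟨h.1.mono hT, h.2.1.mono hT, h.2.2.mono hT⟩

theorem CS.rot {S : Finset ι} {X Y Z : ι → ℕ} (h : CS S X Y Z) : CS S Y Z X :=
  ⟨h.2.1, h.2.2, h.1⟩

theorem nv_mono {S T : Finset ι} (X : ι → ℕ) (hT : T ⊆ S) : nv T X ≤ nv S X :=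
  card_le_card (image_subset_image hT)

theorem nv_pos {S : Finset ι} (X : ι → ℕ) (h : S.Nonempty) : 0 < nv S X :=
  card_pos.2 (h.image X)

theorem card_image_le_of_factor {α β γ : Type} [DecidableEq β] [DecidableEq γ] (S : Finset α)
    (f : α → β) (h : α → γ) (hf : ∀ s ∈ S, ∀ t ∈ S, f s = f t → h s = h t) :
    (S.image h).card ≤ (S.image f).card := by
  have h1 : (S.image h).card ≤ (S.image (fun s => (f s, h s))).card := by
    have : S.image h = (S.image (fun s => (f s, h s))).image Prod.snd := by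
      rw [image_image]; rfl
    rw [this]
    exact card_image_le
  have h2 : (S.image (fun s => (f s, h s))).card ≤ (S.image f).card := by
    refine card_le_card_of_injOn Prod.fst ?_ ?_
    · intro p hp
      obtain ⟨s, hs, rfl⟩ := mem_image.1 (mem_coe.1 hp)
      exact mem_coe.2 (mem_image_of_mem f hs)
    · intro p hp q hq hpq
      obtain ⟨s, hs, rfl⟩ := mem_image.1 (mem_coe.1 hp)
      obtain ⟨t, ht, rfl⟩ := mem_image.1 (mem_coe.1 hq)
      have hst : f s = f t := hpq
      show (f s, h s) = (f t, h t)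
      rw [hst, hf s hs t ht hst]
  exact h1.trans h2

/-- The set has at most `a * b` points. -/
theorem card_le_of_Pl {S : Finset ι} {X Y Z : ι → ℕ} (h : Pl S X Y Z) :
    S.card ≤ nv S X * nv S Y := by
  have hinj : Set.InjOn (fun s => (X s, Y s)) (S : Set ι) := by
    intro s hs t ht hst
    by_contra hne
    have h1 : X s = X t := congrArg Prod.fst hst
    have h2 : Y s = Y t := congrArg Prod.snd hst
    have := h s hs t ht hne h1
    omega
  calc S.card = (S.image (fun s => (X s, Y s))).card := (card_image_of_injOn hinj).symm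
    _ ≤ ((S.image X) ×ˢ (S.image Y)).card := by
        refine card_le_card ?_
        intro p hp
        obtain ⟨s, hs, rfl⟩ := mem_image.1 hp
        exact mem_product.2 ⟨mem_image_of_mem X hs, mem_image_of_mem Y hs⟩
    _ = nv S X * nv S Y := card_product _ _

/-- If the set has exactly `a * b` points then every pair of values occurs. -/
theorem surj_of_card {S : Finset ι} {X Y Z : ι → ℕ} (h : Pl S X Y Z)
    (hc : S.card = nv S X * nv S Y) {x y : ℕ} (hx : x ∈ S.image X) (hy : y ∈ S.image Y) :
    ∃ s ∈ S, X s = x ∧ Y s = y := by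
  have hinj : Set.InjOn (fun s => (X s, Y s)) (S : Set ι) := by
    intro s hs t ht hst
    by_contra hne
    have h1 : X s = X t := congrArg Prod.fst hst
    have h2 : Y s = Y t := congrArg Prod.snd hst
    have := h s hs t ht hne h1
    omega
  have hsub : S.image (fun s => (X s, Y s)) ⊆ (S.image X) ×ˢ (S.image Y) := by
    intro p hp
    obtain ⟨s, hs, rfl⟩ := mem_image.1 hp
    exact mem_product.2 ⟨mem_image_of_mem X hs, mem_image_of_mem Y hs⟩
  have heq : S.image (fun s => (X s, Y s)) = (S.image X) ×ˢ (S.image Y) := by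
    refine eq_of_subset_of_card_le hsub ?_
    rw [card_image_of_injOn hinj, hc, card_product]
    exact le_rfl
  have hm : (x, y) ∈ S.image (fun s => (X s, Y s)) := by
    rw [heq]; exact mem_product.2 ⟨hx, hy⟩
  obtain ⟨s, hs, hsxy⟩ := mem_image.1 hm
  exact ⟨s, hs, congrArg Prod.fst hsxy, congrArg Prod.snd hsxy⟩

/-- Strictness of the trivial bound. -/
theorem strict {S : Finset ι} {X Y Z : ι → ℕ} (h : CS S X Y Z) (h2 : 2 ≤ S.card) :
    S.card ^ 3 + 1 ≤ (nv S X * nv S Y * nv S Z) ^ 2 := by
  obtain ⟨hX, hY, hZ⟩ := h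
  have e1 := card_le_of_Pl hX
  have e2 := card_le_of_Pl hY
  have e3 := card_le_of_Pl hZ
  have hne : S.Nonempty := card_pos.1 (by omega)
  have pa := nv_pos X hne
  have pb := nv_pos Y hne
  have pc := nv_pos Z hne
  by_contra hcon
  push Not at hcon
  set n := S.card with hn
  set a := nv S X with ha
  set b := nv S Y with hb
  set c := nv S Z with hc
  have hge : (a * b * c) ^ 2 ≤ n ^ 3 := by omega
  have hprod : (a * b * c) ^ 2 = (a * b) * (b * c) * (c * a) := by ring
  have hn3 : n ^ 3 = n * n * n := by ring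
  have q1 : n = a * b := by
    refine le_antisymm e1 ?_
    by_contra hlt
    push Not at hlt
    have : n * n * n < (a * b) * (b * c) * (c * a) := by
      calc n * n * n < (a * b) * n * n := by
            have : 0 < n := by omega
            have h1 : n * n < a * b * n := Nat.mul_lt_mul_of_pos_right hlt this
            exact Nat.mul_lt_mul_of_pos_right h1 this
        _ ≤ (a * b) * (b * c) * (c * a) := by
            exact Nat.mul_le_mul (Nat.mul_le_mul le_rfl e2) e3
    omega
  have q2 : n = b * c := by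
    refine le_antisymm e2 ?_
    by_contra hlt
    push Not at hlt
    have : n * n * n < (a * b) * (b * c) * (c * a) := by
      calc n * n * n < n * (b * c) * n := by
            have : 0 < n := by omega
            have h1 : n * n < n * (b * c) := Nat.mul_lt_mul_of_pos_left hlt this
            exact Nat.mul_lt_mul_of_pos_right h1 this
        _ ≤ (a * b) * (b * c) * (c * a) := by
            exact Nat.mul_le_mul (Nat.mul_le_mul e1 le_rfl) e3
    omega
  have q3 : n = c * a := by
    refine le_antisymm e3 ?_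
    by_contra hlt
    push Not at hlt
    have : n * n * n < (a * b) * (b * c) * (c * a) := by
      calc n * n * n < n * n * (c * a) := by
            have : 0 < n := by omega
            have h1 : 0 < n * n := Nat.mul_pos this this
            exact Nat.mul_lt_mul_of_pos_left hlt h1
        _ ≤ (a * b) * (b * c) * (c * a) := by
            exact Nat.mul_le_mul (Nat.mul_le_mul e1 e2) le_rfl
    omega
  -- `a ≥ 2`
  have ha2 : 2 ≤ a := by
    by_contra hlt
    have ha1 : a = 1 := by omega
    have hb1 : n = b := by rw [q1, ha1]; ring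
    have hc1 : n = c := by rw [q3, ha1]; ring
    have : n = n * n := by
      nth_rewrite 1 [q2]
      rw [← hb1, ← hc1]
    have h3 : n * 2 ≤ n * n := Nat.mul_le_mul le_rfl h2
    omega
  obtain ⟨x₁, hx₁, x₂, hx₂, hx12⟩ := one_lt_card.1 (show 1 < (S.image X).card from ha2)
  have hneY : (S.image Y).Nonempty := hne.image Y
  have hneZ : (S.image Z).Nonempty := hne.image Z
  obtain ⟨y₀, hy₀, hy₀min⟩ := exists_min_image (S.image Y) id hneY
  obtain ⟨z₀, hz₀, hz₀min⟩ := exists_min_image (S.image Z) id hneZ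
  have key : ∀ x ∈ S.image X, ∃ s ∈ S, X s = x ∧ Y s = y₀ ∧ Z s = z₀ := by
    intro x hx
    obtain ⟨p, hp, hpx, hpy⟩ := surj_of_card hX (by rw [← hn]; exact q1) hx hy₀
    obtain ⟨q, hq, hqz, hqx⟩ := surj_of_card hZ (by rw [← hn]; exact q3) hz₀ hx
    by_cases hpq : p = q
    · subst hpq
      exact ⟨p, hp, hpx, hpy, hqz⟩
    · exfalso
      have m1 : y₀ ≤ Y q := hy₀min _ (mem_image_of_mem Y hq)
      have m2 : z₀ ≤ Z p := hz₀min _ (mem_image_of_mem Z hp)
      rcases hX p hp q hq hpq (by rw [hpx, hqx]) with h | h <;> omega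
  obtain ⟨s₁, hs₁, a1, b1, c1⟩ := key x₁ hx₁
  obtain ⟨s₂, hs₂, a2, b2, c2⟩ := key x₂ hx₂
  have hs12 : s₁ ≠ s₂ := by
    rintro rfl
    exact hx12 (a1.symm.trans a2)
  rcases hY s₁ hs₁ s₂ hs₂ hs12 (by rw [b1, b2]) with h | h <;> omega

end Pool.Agent.H24.GL
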