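import Pool.Agent.H24.GL.Basic

set_option autoImplicit false

namespace Pool.Agent.H24.GL

open Finset

variable {ι : Type}

/-- `g` is a monotone grouping of the values of `X` on `S` in `k` groups with at most `m` values
each, `r` being the index inside the group. -/
structure Grp (S : Finset ι) (X : ι → ℕ) (k m : ℕ) (g r : ι → ℕ) : Prop where
  lt : ∀ s ∈ S, g s < k
  rlt : ∀ s ∈ S, r s < m
  mono : ∀ s ∈ S, ∀ t ∈ S, X s ≤ X t → g s ≤ g t
  inj : ∀ s ∈ S, ∀ t ∈ S, g s = g t → r s = r t → X s = X t

theorem Grp.congr {S : Finset ι} {X : ι → ℕ} {k m : ℕ} {g r : ι → ℕ} (h : Grp S X k m g r)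
    {s t : ι} (hs : s ∈ S) (ht : t ∈ S) (hst : X s = X t) : g s = g t :=
  le_antisymm (h.mono s hs t ht hst.le) (h.mono t ht s hs hst.ge)

theorem exists_grp (S : Finset ι) (X : ι → ℕ) (k : ℕ) (hk : 0 < k) :
    ∃ g r, Grp S X k (nv S X / k + 1) g r := by
  set m := nv S X / k + 1 with hm
  have hmpos : 0 < m := Nat.succ_pos _
  have hak : nv S X < m * k := by
    have := Nat.lt_mul_div_succ (nv S X) hk
    rw [hm, mul_comm]; exact this
  let rank : ι → ℕ := fun s => ((S.image X).filter (fun x => x < X s)).card
  have hrank_lt : ∀ s ∈ S, rank s < nv S X := by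
    intro s hs
    refine card_lt_card ?_
    refine ⟨filter_subset _ _, fun hcon => ?_⟩
    have := hcon (mem_image_of_mem X hs)
    have := (mem_filter.1 this).2
    omega
  have hrank_mono : ∀ s t, X s ≤ X t → rank s ≤ rank t := by
    intro s t hst
    refine card_le_card ?_
    intro x hx
    rw [mem_filter] at hx ⊢
    exact ⟨hx.1, by omega⟩
  have hrank_strict : ∀ s ∈ S, ∀ t, X s < X t → rank s < rank t := by
    intro s hs t hst
    refine card_lt_card ⟨?_, fun hcon => ?_⟩
    · intro x hx
      rw [mem_filter] at hx ⊢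
      exact ⟨hx.1, by omega⟩
    · have h1 : X s ∈ (S.image X).filter (fun x => x < X t) :=
        mem_filter.2 ⟨mem_image_of_mem X hs, hst⟩
      have h2 := (mem_filter.1 (hcon h1)).2
      omega
  refine ⟨fun s => rank s / m, fun s => rank s % m, ?_, ?_, ?_, ?_⟩
  · intro s hs
    exact Nat.div_lt_of_lt_mul ((hrank_lt s hs).trans hak)
  · intro s _
    exact Nat.mod_lt _ hmpos
  · intro s _ t _ hst
    exact Nat.div_le_div_right (hrank_mono s t hst)
  · intro s hs t ht h1 h2
    have h1' : rank s / m = rank t / m := h1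
    have h2' : rank s % m = rank t % m := h2
    have heq : rank s = rank t := by
      rw [← Nat.div_add_mod (rank s) m, ← Nat.div_add_mod (rank t) m, h1', h2']
    rcases lt_trichotomy (X s) (X t) with h | h | h
    · have := hrank_strict s hs t h; omega
    · exact h
    · have := hrank_strict t ht s h; omega

/-- On a subset where the group is constant there are at most `m` values. -/
theorem nv_le_of_const {S T : Finset ι} {X : ι → ℕ} {k m : ℕ} {g r : ι → ℕ}
    (h : Grp S X k m g r) (hT : T ⊆ S) (hc : ∀ s ∈ T, ∀ t ∈ T, g s = g t) : nv T X ≤ m := by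
  have h1 : (T.image X).card ≤ (T.image r).card :=
    card_image_le_of_factor T r X fun s hs t ht hst => h.inj s (hT hs) t (hT ht) (hc s hs t ht) hst
  have h2 : (T.image r).card ≤ (range m).card := by
    refine card_le_card ?_
    intro x hx
    obtain ⟨s, hs, rfl⟩ := mem_image.1 hx
    exact mem_range.2 (h.rlt s (hT hs))
  rw [card_range] at h2
  exact h1.trans h2

/-- Each plane `Z = z` meets at most `2k` of the group pairs `(gX, gY)`. -/
theorem card_W {S : Finset ι} {X Y Z : ι → ℕ} {k mX mY : ℕ} {gX rX gY rY : ι → ℕ}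
    (hP : Pl S Z X Y) (hX : Grp S X k mX gX rX) (hY : Grp S Y k mY gY rY) :
    (S.image (fun s => (Z s, gX s, gY s))).card ≤ 2 * k * nv S Z := by
  have himg : (S.image (fun s => (Z s, gX s, gY s))).image Prod.fst = S.image Z := by
    rw [image_image]; rfl
  have key := card_le_mul_card_image (f := (Prod.fst : ℕ × ℕ × ℕ → ℕ))
    (S.image (fun s => (Z s, gX s, gY s))) (2 * k) ?_
  · rw [himg] at key
    exact key
  · intro z hz
    have : (range (2 * k)).card = 2 * k := card_range _
    rw [← this]
    refine card_le_card_of_injOn (fun w => w.2.1 + w.2.2) ?_ ?_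
    · intro w hw
      have hw' := mem_filter.1 (mem_coe.1 hw)
      obtain ⟨s, hs, rfl⟩ := mem_image.1 hw'.1
      have h1 := hX.lt s hs
      have h2 := hY.lt s hs
      simp only [coe_range, Set.mem_Iio]
      omega
    · intro w hw w' hw' hww
      have hw1 := mem_filter.1 (mem_coe.1 hw)
      have hw2 := mem_filter.1 (mem_coe.1 hw')
      obtain ⟨s, hs, rfl⟩ := mem_image.1 hw1.1
      obtain ⟨t, ht, rfl⟩ := mem_image.1 hw2.1
      have hzst : Z s = Z t := hw1.2.trans hw2.2.symm
      have hsum : gX s + gY s = gX t + gY t := hww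
      by_cases hst : s = t
      · rw [hst]
      · rcases hP s hs t ht hst hzst with h | h
        · have h1 := hX.mono s hs t ht h.1.le
          have h2 := hY.mono s hs t ht h.2.le
          have e1 : gX s = gX t := by omega
          have e2 : gY s = gY t := by omega
          show (Z s, gX s, gY s) = (Z t, gX t, gY t)
          rw [hzst, e1, e2]
        · have h1 := hX.mono t ht s hs h.1.le
          have h2 := hY.mono t ht s hs h.2.le
          have e1 : gX s = gX t := by omega
          have e2 : gY s = gY t := by omega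
          show (Z s, gX s, gY s) = (Z t, gX t, gY t)
          rw [hzst, e1, e2]

/-- Sum over cells of the number of values of `X` in the cell. -/
theorem sum_nv_le {κ μ : Type} [DecidableEq κ] [DecidableEq μ] (S : Finset ι) (X : ι → ℕ)
    (cell : ι → κ) (f : ι → μ)
    (hf : ∀ s ∈ S, ∀ t ∈ S, f s = f t → cell s = cell t ∧ X s = X t) (H : Finset κ) :
    ∑ c ∈ H, nv (S.filter (fun s => cell s = c)) X ≤ (S.image f).card := by
  set V : Finset (κ × ℕ) := S.image (fun s => (cell s, X s)) with hV
  have h1 : ∀ c, nv (S.filter (fun s => cell s = c)) X ≤ (V.filter (fun v => v.1 = c)).card := by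
    intro c
    refine card_le_card_of_injOn (fun x => (c, x)) ?_ ?_
    · intro x hx
      obtain ⟨s, hs, rfl⟩ := mem_image.1 (mem_coe.1 hx)
      obtain ⟨hs1, hs2⟩ := mem_filter.1 hs
      refine mem_coe.2 (mem_filter.2 ⟨?_, rfl⟩)
      rw [hV]
      refine mem_image.2 ⟨s, hs1, ?_⟩
      rw [hs2]
    · intro x _ y _ hxy
      exact congrArg Prod.snd hxy
  have h2 : ∑ c ∈ H, (V.filter (fun v => v.1 = c)).card ≤ V.card := by
    have h3 : ∑ c ∈ H, (V.filter (fun v => v.1 = c)).card
        = ((V.filter (fun v => v.1 ∈ H))).card := by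
      rw [card_eq_sum_card_fiberwise (f := Prod.fst) (t := H)]
      · refine sum_congr rfl fun c hc => ?_
        congr 1
        ext v
        simp only [mem_filter]
        constructor
        · rintro ⟨h1, h2⟩; exact ⟨⟨h1, by rw [h2]; exact hc⟩, h2⟩
        · rintro ⟨⟨h1, _⟩, h2⟩; exact ⟨h1, h2⟩
      · intro v hv
        exact mem_coe.2 (mem_filter.1 (mem_coe.1 hv)).2
    rw [h3]
    exact card_filter_le _ _
  have h3 : V.card ≤ (S.image f).card := by
    refine card_image_le_of_factor S f (fun s => (cell s, X s)) ?_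
    intro s hs t ht hst
    obtain ⟨e1, e2⟩ := hf s hs t ht hst
    rw [e1, e2]
  exact (sum_le_sum fun c _ => h1 c).trans (h2.trans h3)

end Pool.Agent.H24.GL
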