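import Pool.Agent.H24.GL.Groups

set_option autoImplicit false

namespace Pool.Agent.H24.GL

open Finset

/-- tangent line inequality -/
theorem rpow_tangent {β : ℝ} (hβ0 : 0 ≤ β) (hβ1 : β ≤ 1) {x t : ℝ} (hx : 0 ≤ x) (ht : 0 < t) :
    x ^ β ≤ t ^ (β - 1) * (x + t) := by
  have h := Real.geom_mean_le_arith_mean2_weighted (w₁ := β) (w₂ := 1 - β) (p₁ := x) (p₂ := t)
    hβ0 (by linarith) hx ht.le (by ring)
  have h1 : x ^ β * t ^ (1 - β) ≤ x + t := by
    refine h.trans ?_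
    have e1 : β * x ≤ 1 * x := mul_le_mul_of_nonneg_right hβ1 hx
    have e2 : (1 - β) * t ≤ 1 * t := mul_le_mul_of_nonneg_right (by linarith) ht.le
    linarith
  have h2 : t ^ (β - 1) * t ^ (1 - β) = 1 := by
    rw [← Real.rpow_add ht]
    have : β - 1 + (1 - β) = 0 := by ring
    rw [this, Real.rpow_zero]
  have hp : 0 < t ^ (1 - β) := Real.rpow_pos_of_pos ht _
  have hq : 0 < t ^ (β - 1) := Real.rpow_pos_of_pos ht _
  calc x ^ β = (t ^ (β - 1) * t ^ (1 - β)) * x ^ β := by rw [h2, one_mul]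
    _ = t ^ (β - 1) * (x ^ β * t ^ (1 - β)) := by ring
    _ ≤ t ^ (β - 1) * (x + t) := mul_le_mul_of_nonneg_left h1 hq.le

/-- `(a/k+1) ≤ 2a/k` for `a ≥ k`. -/
theorem grp_size_le {a k : ℕ} (hk : 0 < k) (hka : k ≤ a) :
    ((a / k + 1 : ℕ) : ℝ) ≤ 2 * a / k := by
  have hkR : (0 : ℝ) < k := by exact_mod_cast hk
  rw [le_div_iff₀ hkR]
  have h1 : (a / k) * k ≤ a := Nat.div_mul_le_self a k
  have h2 : (a / k + 1) * k ≤ 2 * a := by
    calc (a / k + 1) * k = (a / k) * k + k := by ring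
      _ ≤ a + a := Nat.add_le_add h1 hka
      _ = 2 * a := by ring
  exact_mod_cast h2

variable {ι : Type}

/-- Contribution of the heavy columns (the `Z` axis is not cut). -/
theorem heavy_sum {S : Finset ι} {X Y Z : ι → ℕ} {k : ℕ}
    {gX rX gY rY : ι → ℕ} (hP : Pl S Z X Y) (hk : 3 ≤ k)
    (hX : Grp S X k (nv S X / k + 1) gX rX) (hY : Grp S Y k (nv S Y / k + 1) gY rY)
    (ha : k ≤ nv S X) (hb : k ≤ nv S Y) (hd : 0 < nv S Z)
    {σ β : ℝ} (hβ : β = (2 - σ) / 3) (hσ0 : 0 < σ) (hσ1 : σ ≤ 1 / 4) (hkσ : (k : ℝ) ^ σ ≤ 2)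
    (IH : ∀ T ⊂ S, (T.card : ℝ) ≤ ((nv T X : ℝ) * nv T Y * nv T Z) ^ β)
    (H : Finset (ℕ × ℕ)) (hH : (H.card : ℝ) * 2 ^ 30 ≤ 2 * (k : ℝ) ^ 2) :
    ∑ p ∈ H, ((S.filter (fun s => (gX s, gY s) = p)).card : ℝ)
      ≤ 1 / 32 * ((nv S X : ℝ) * nv S Y * nv S Z) ^ β := by
  classical
  have hβ0 : 0 ≤ β := by rw [hβ]; linarith
  have hβ1 : β ≤ 1 := by rw [hβ]; linarith
  have hβ23 : β ≤ 2 / 3 := by rw [hβ]; linarith
  have hk0 : 0 < k := by omega
  have hkR : (0 : ℝ) < k := by exact_mod_cast hk0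
  set mX := nv S X / k + 1 with hmX
  set mY := nv S Y / k + 1 with hmY
  have haR : (0 : ℝ) < nv S X := by
    have : 0 < nv S X := by omega
    exact_mod_cast this
  have hbR : (0 : ℝ) < nv S Y := by
    have : 0 < nv S Y := by omega
    exact_mod_cast this
  have hdR : (0 : ℝ) < nv S Z := by exact_mod_cast hd
  set a : ℝ := ((nv S X : ℕ) : ℝ) with hadef
  set b : ℝ := ((nv S Y : ℕ) : ℝ) with hbdef
  set d : ℝ := ((nv S Z : ℕ) : ℝ) with hddef
  have hmXle : (mX : ℝ) ≤ 2 * a / k := grp_size_le hk0 ha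
  have hmYle : (mY : ℝ) ≤ 2 * b / k := grp_size_le hk0 hb
  have hmXlt : mX < nv S X := by
    have h3 : nv S X / k ≤ nv S X / 3 := Nat.div_le_div_left hk (by norm_num)
    omega
  set τ : ℝ := 2 ^ 30 * d / k with hτ
  have hτpos : 0 < τ := by positivity
  -- bound for one column
  have hone : ∀ p ∈ H, ((S.filter (fun s => (gX s, gY s) = p)).card : ℝ)
      ≤ ((mX : ℝ) * mY) ^ β * (τ ^ (β - 1) *
        ((nv (S.filter (fun s => (gX s, gY s) = p)) Z : ℝ) + τ)) := by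
    intro p _
    set T := S.filter (fun s => (gX s, gY s) = p) with hT
    have hTS : T ⊆ S := filter_subset _ _
    have hTX : nv T X ≤ mX := nv_le_of_const hX hTS fun s hs t ht =>
      congrArg Prod.fst ((mem_filter.1 hs).2.trans (mem_filter.1 ht).2.symm)
    have hTY : nv T Y ≤ mY := nv_le_of_const hY hTS fun s hs t ht =>
      congrArg Prod.snd ((mem_filter.1 hs).2.trans (mem_filter.1 ht).2.symm)
    have hne : T ≠ S := by
      intro h
      rw [h] at hTX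
      omega
    have h1 := IH T (Finset.ssubset_iff_subset_ne.2 ⟨hTS, hne⟩)
    have h2 : ((nv T X : ℝ) * nv T Y * nv T Z) ^ β
        ≤ ((mX : ℝ) * mY * nv T Z) ^ β := by
      refine Real.rpow_le_rpow (by positivity) ?_ hβ0
      have c1 : (nv T X : ℝ) ≤ mX := by exact_mod_cast hTX
      have c2 : (nv T Y : ℝ) ≤ mY := by exact_mod_cast hTY
      have : (nv T X : ℝ) * nv T Y ≤ (mX : ℝ) * mY :=
        mul_le_mul c1 c2 (by positivity) (by positivity)
      exact mul_le_mul_of_nonneg_right this (by positivity)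
    have h3 : ((mX : ℝ) * mY * nv T Z) ^ β = ((mX : ℝ) * mY) ^ β * (nv T Z : ℝ) ^ β :=
      Real.mul_rpow (by positivity) (by positivity)
    have h4 : (nv T Z : ℝ) ^ β ≤ τ ^ (β - 1) * ((nv T Z : ℝ) + τ) :=
      rpow_tangent hβ0 hβ1 (by positivity) hτpos
    calc (T.card : ℝ) ≤ _ := h1
      _ ≤ _ := h2
      _ = _ := h3
      _ ≤ _ := mul_le_mul_of_nonneg_left h4 (by positivity)
  -- sum of the `Z` values
  have hsumZ : (∑ p ∈ H, (nv (S.filter (fun s => (gX s, gY s) = p)) Z : ℝ)) ≤ 2 * k * d := by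
    have h1 := sum_nv_le S Z (fun s => (gX s, gY s)) (fun s => (Z s, gX s, gY s))
      (by
        intro s _ t _ hst
        have e1 : Z s = Z t := congrArg Prod.fst hst
        have e2 : (gX s, gY s) = (gX t, gY t) := congrArg Prod.snd hst
        exact ⟨e2, e1⟩) H
    have h2 := h1.trans (card_W hP hX hY)
    rw [hddef]
    exact_mod_cast h2
  have hHτ : (H.card : ℝ) * τ ≤ 2 * k * d := by
    rw [hτ]
    have : (H.card : ℝ) * (2 ^ 30 * d / k) = ((H.card : ℝ) * 2 ^ 30) * (d / k) := by ring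
    rw [this]
    calc ((H.card : ℝ) * 2 ^ 30) * (d / k) ≤ (2 * (k : ℝ) ^ 2) * (d / k) :=
          mul_le_mul_of_nonneg_right hH (by positivity)
      _ = 2 * k * d := by field_simp
  have hsum : ∑ p ∈ H, ((S.filter (fun s => (gX s, gY s) = p)).card : ℝ)
      ≤ ((mX : ℝ) * mY) ^ β * (τ ^ (β - 1) * (4 * k * d)) := by
    calc ∑ p ∈ H, ((S.filter (fun s => (gX s, gY s) = p)).card : ℝ)
        ≤ ∑ p ∈ H, ((mX : ℝ) * mY) ^ β * (τ ^ (β - 1) *
          ((nv (S.filter (fun s => (gX s, gY s) = p)) Z : ℝ) + τ)) := sum_le_sum hone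
      _ = ((mX : ℝ) * mY) ^ β * (τ ^ (β - 1) *
          ((∑ p ∈ H, (nv (S.filter (fun s => (gX s, gY s) = p)) Z : ℝ)) + H.card * τ)) := by
          rw [← mul_sum, ← mul_sum, sum_add_distrib, sum_const, nsmul_eq_mul]
      _ ≤ ((mX : ℝ) * mY) ^ β * (τ ^ (β - 1) * (4 * k * d)) := by
          refine mul_le_mul_of_nonneg_left ?_ (by positivity)
          refine mul_le_mul_of_nonneg_left ?_ (by positivity)
          linarith
  refine hsum.trans ?_
  -- real computation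
  have hmm : ((mX : ℝ) * mY) ^ β ≤ (4 * (a * b) / (k : ℝ) ^ 2) ^ β := by
    refine Real.rpow_le_rpow (by positivity) ?_ hβ0
    calc (mX : ℝ) * mY ≤ (2 * a / k) * (2 * b / k) :=
          mul_le_mul hmXle hmYle (by positivity) (by positivity)
      _ = 4 * (a * b) / (k : ℝ) ^ 2 := by ring
  have h4 : (4 : ℝ) ^ β ≤ 4 := by
    calc (4 : ℝ) ^ β ≤ 4 ^ (1 : ℝ) := Real.rpow_le_rpow_of_exponent_le (by norm_num) hβ1
      _ = 4 := by rw [Real.rpow_one]
  have hsplit : (4 * (a * b) / (k : ℝ) ^ 2) ^ β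
      = 4 ^ β * (a * b) ^ β / ((k : ℝ) ^ (2 * β)) := by
    rw [Real.div_rpow (by positivity) (by positivity), Real.mul_rpow (by norm_num) (by positivity)]
    congr 1
    rw [← Real.rpow_natCast, ← Real.rpow_mul hkR.le]
    norm_num
  have hτsplit : τ ^ (β - 1) = ((2 : ℝ) ^ 30) ^ (β - 1) * d ^ (β - 1) * (k : ℝ) ^ (1 - β) := by
    rw [hτ, Real.div_rpow (by positivity) hkR.le, Real.mul_rpow (by positivity) hdR.le]
    have : (1 - β) = -(β - 1) := by ring
    rw [this, Real.rpow_neg hkR.le, div_eq_mul_inv]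
  have h230 : ((2 : ℝ) ^ 30) ^ (β - 1) ≤ 1 / 1024 := by
    have e1 : ((2 : ℝ) ^ 30) ^ (β - 1) ≤ ((2 : ℝ) ^ 30) ^ (-(1 / 3) : ℝ) :=
      Real.rpow_le_rpow_of_exponent_le (by norm_num) (by linarith)
    refine e1.trans (le_of_eq ?_)
    rw [← Real.rpow_natCast, ← Real.rpow_mul (by norm_num)]
    have : ((30 : ℕ) : ℝ) * (-(1 / 3)) = -((10 : ℕ) : ℝ) := by push_cast; norm_num
    rw [this, Real.rpow_neg (by norm_num), Real.rpow_natCast]
    norm_num
  have hdd : d ^ (β - 1) * d = d ^ β := by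
    rw [← Real.rpow_add_one hdR.ne']
    congr 1
    ring
  have hkk : (k : ℝ) ^ (1 - β) * k / ((k : ℝ) ^ (2 * β)) = (k : ℝ) ^ σ := by
    rw [← Real.rpow_add_one hkR.ne', ← Real.rpow_sub hkR]
    congr 1
    rw [hβ]; ring
  have habd : (a * b * d) ^ β = (a * b) ^ β * d ^ β := Real.mul_rpow (by positivity) hdR.le
  calc ((mX : ℝ) * mY) ^ β * (τ ^ (β - 1) * (4 * k * d))
      ≤ (4 ^ β * (a * b) ^ β / ((k : ℝ) ^ (2 * β))) *
        ((((2 : ℝ) ^ 30) ^ (β - 1) * d ^ (β - 1) * (k : ℝ) ^ (1 - β)) * (4 * k * d)) := by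
        rw [← hsplit, ← hτsplit]
        exact mul_le_mul_of_nonneg_right hmm (by positivity)
    _ = (4 * (4 ^ β) * ((2 : ℝ) ^ 30) ^ (β - 1)) * ((k : ℝ) ^ (1 - β) * k / ((k : ℝ) ^ (2 * β)))
        * ((a * b) ^ β * (d ^ (β - 1) * d)) := by ring
    _ = (4 * (4 ^ β) * ((2 : ℝ) ^ 30) ^ (β - 1)) * ((k : ℝ) ^ σ) * (a * b * d) ^ β := by
        rw [hkk, hdd, ← habd]
    _ ≤ (4 * 4 * (1 / 1024)) * 2 * (a * b * d) ^ β := by
        refine mul_le_mul_of_nonneg_right ?_ (by positivity)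
        refine mul_le_mul ?_ hkσ (by positivity) (by positivity)
        refine mul_le_mul ?_ h230 (by positivity) (by positivity)
        linarith
    _ = 1 / 32 * (a * b * d) ^ β := by ring

end Pool.Agent.H24.GL
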