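import Pool.Agent.H24.GL.Groups

set_option autoImplicit false

namespace Pool.Agent.H24.GL

open Finset

/-- Two cells share at least two coordinates. -/
def Conf (c t : ℕ × ℕ × ℕ) : Prop :=
  (c.1 = t.1 ∧ c.2.1 = t.2.1) ∨ (c.2.1 = t.2.1 ∧ c.2.2 = t.2.2) ∨ (c.2.2 = t.2.2 ∧ c.1 = t.1)

instance (c t : ℕ × ℕ × ℕ) : Decidable (Conf c t) := by unfold Conf; infer_instance

theorem Conf.symm {c t : ℕ × ℕ × ℕ} (h : Conf c t) : Conf t c := by
  unfold Conf at *
  rcases h with ⟨a, b⟩ | ⟨a, b⟩ | ⟨a, b⟩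
  · exact Or.inl ⟨a.symm, b.symm⟩
  · exact Or.inr (Or.inl ⟨a.symm, b.symm⟩)
  · exact Or.inr (Or.inr ⟨a.symm, b.symm⟩)

/-- Greedy choice of a subset without conflicts. -/
theorem exists_indep (Q : Finset (ℕ × ℕ × ℕ)) (D : ℕ)
    (h1 : ∀ t ∈ Q, (Q.filter (fun c => c.1 = t.1 ∧ c.2.1 = t.2.1)).card ≤ D)
    (h2 : ∀ t ∈ Q, (Q.filter (fun c => c.2.1 = t.2.1 ∧ c.2.2 = t.2.2)).card ≤ D)
    (h3 : ∀ t ∈ Q, (Q.filter (fun c => c.2.2 = t.2.2 ∧ c.1 = t.1)).card ≤ D) :
    ∃ T ⊆ Q, Q.card ≤ T.card * (3 * D) ∧ ∀ c ∈ T, ∀ c' ∈ T, c ≠ c' → ¬ Conf c c' := by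
  classical
  let F : Finset (Finset (ℕ × ℕ × ℕ)) :=
    Q.powerset.filter (fun T => ∀ c ∈ T, ∀ c' ∈ T, c ≠ c' → ¬ Conf c c')
  have hF : F.Nonempty := by
    refine ⟨∅, mem_filter.2 ⟨empty_mem_powerset _, ?_⟩⟩
    intro c hc
    exact absurd hc (notMem_empty _)
  obtain ⟨T, hTF, hTmax⟩ := exists_max_image F card hF
  obtain ⟨hTQ, hTind⟩ := mem_filter.1 hTF
  rw [mem_powerset] at hTQ
  refine ⟨T, hTQ, ?_, hTind⟩
  have hcover : Q ⊆ T.biUnion (fun t => Q.filter (fun c => Conf c t)) := by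
    intro c hc
    rw [mem_biUnion]
    by_contra hcon
    push Not at hcon
    have hno : ∀ t ∈ T, ¬ Conf c t := by
      intro t ht hct
      exact hcon t ht (mem_filter.2 ⟨hc, hct⟩)
    have hcT : c ∉ T := by
      intro hcT
      exact hno c hcT (Or.inl ⟨rfl, rfl⟩)
    have hins : insert c T ∈ F := by
      refine mem_filter.2 ⟨?_, ?_⟩
      · rw [mem_powerset]
        exact insert_subset hc hTQ
      · intro a ha b hb hab
        rw [mem_insert] at ha hb
        rcases ha with rfl | ha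
        · rcases hb with rfl | hb
          · exact absurd rfl hab
          · exact hno b hb
        · rcases hb with rfl | hb
          · exact fun h => hno a ha h.symm
          · exact hTind a ha b hb hab
    have := hTmax _ hins
    rw [card_insert_of_notMem hcT] at this
    omega
  have hdeg : ∀ t ∈ T, (Q.filter (fun c => Conf c t)).card ≤ 3 * D := by
    intro t ht
    have hsub : Q.filter (fun c => Conf c t) ⊆
        (Q.filter (fun c => c.1 = t.1 ∧ c.2.1 = t.2.1) ∪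
          Q.filter (fun c => c.2.1 = t.2.1 ∧ c.2.2 = t.2.2)) ∪
          Q.filter (fun c => c.2.2 = t.2.2 ∧ c.1 = t.1) := by
      intro c hc
      obtain ⟨hcQ, hcc⟩ := mem_filter.1 hc
      rcases hcc with h | h | h
      · exact mem_union_left _ (mem_union_left _ (mem_filter.2 ⟨hcQ, h⟩))
      · exact mem_union_left _ (mem_union_right _ (mem_filter.2 ⟨hcQ, h⟩))
      · exact mem_union_right _ (mem_filter.2 ⟨hcQ, h⟩)
    have b1 := h1 t (hTQ ht)
    have b2 := h2 t (hTQ ht)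
    have b3 := h3 t (hTQ ht)
    calc (Q.filter (fun c => Conf c t)).card ≤ _ := card_le_card hsub
      _ ≤ _ + _ := card_union_le _ _
      _ ≤ (_ + _) + _ := Nat.add_le_add_right (card_union_le _ _) _
      _ ≤ 3 * D := by omega
  calc Q.card ≤ (T.biUnion (fun t => Q.filter (fun c => Conf c t))).card := card_le_card hcover
    _ ≤ ∑ t ∈ T, (Q.filter (fun c => Conf c t)).card := card_biUnion_le
    _ ≤ ∑ _t ∈ T, 3 * D := sum_le_sum hdeg
    _ = T.card * (3 * D) := by rw [sum_const, smul_eq_mul]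

variable {ι : Type}

/-- The cells that are met by planes with given indices inside their groups form a set whose
conflict free subsets are pairwise comparable. -/
theorem cs_of_indep {S : Finset ι} {X Y Z : ι → ℕ} {k mX mY mZ : ℕ}
    {gX rX gY rY gZ rZ : ι → ℕ} (hCS : CS S X Y Z)
    (hX : Grp S X k mX gX rX) (hY : Grp S Y k mY gY rY) (hZ : Grp S Z k mZ gZ rZ)
    (u v w : ℕ) (T : Finset (ℕ × ℕ × ℕ))
    (h1 : ∀ c ∈ T, ∃ s ∈ S, (gX s, gY s, gZ s) = c ∧ rX s = u)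
    (h2 : ∀ c ∈ T, ∃ s ∈ S, (gX s, gY s, gZ s) = c ∧ rY s = v)
    (h3 : ∀ c ∈ T, ∃ s ∈ S, (gX s, gY s, gZ s) = c ∧ rZ s = w)
    (hT : ∀ c ∈ T, ∀ c' ∈ T, c ≠ c' → ¬ Conf c c') :
    CS T (fun c => c.1) (fun c => c.2.1) (fun c => c.2.2) := by
  obtain ⟨pX, pY, pZ⟩ := hCS
  refine ⟨?_, ?_, ?_⟩
  · intro c hc c' hc' hne hcc
    have hcc' : c.1 = c'.1 := hcc
    have hconf := hT c hc c' hc' hne
    obtain ⟨s, hs, hsc, hsu⟩ := h1 c hc
    obtain ⟨t, ht, htc, htu⟩ := h1 c' hc'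
    subst hsc htc
    have hst : s ≠ t := by rintro rfl; exact hne rfl
    have hxx : X s = X t := hX.inj s hs t ht hcc' (hsu.trans htu.symm)
    have n1 : gY s ≠ gY t := fun h => hconf (Or.inl ⟨hcc', h⟩)
    have n2 : gZ s ≠ gZ t := fun h => hconf (Or.inr (Or.inr ⟨h, hcc'⟩))
    show (gY s < gY t ∧ gZ s < gZ t) ∨ (gY t < gY s ∧ gZ t < gZ s)
    rcases pX s hs t ht hst hxx with h | h
    · have := hY.mono s hs t ht h.1.le
      have := hZ.mono s hs t ht h.2.le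
      omega
    · have := hY.mono t ht s hs h.1.le
      have := hZ.mono t ht s hs h.2.le
      omega
  · intro c hc c' hc' hne hcc
    have hcc' : c.2.1 = c'.2.1 := hcc
    have hconf := hT c hc c' hc' hne
    obtain ⟨s, hs, hsc, hsu⟩ := h2 c hc
    obtain ⟨t, ht, htc, htu⟩ := h2 c' hc'
    subst hsc htc
    have hst : s ≠ t := by rintro rfl; exact hne rfl
    have hxx : Y s = Y t := hY.inj s hs t ht hcc' (hsu.trans htu.symm)
    have n1 : gZ s ≠ gZ t := fun h => hconf (Or.inr (Or.inl ⟨hcc', h⟩))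
    have n2 : gX s ≠ gX t := fun h => hconf (Or.inl ⟨h, hcc'⟩)
    show (gZ s < gZ t ∧ gX s < gX t) ∨ (gZ t < gZ s ∧ gX t < gX s)
    rcases pY s hs t ht hst hxx with h | h
    · have := hZ.mono s hs t ht h.1.le
      have := hX.mono s hs t ht h.2.le
      omega
    · have := hZ.mono t ht s hs h.1.le
      have := hX.mono t ht s hs h.2.le
      omega
  · intro c hc c' hc' hne hcc
    have hcc' : c.2.2 = c'.2.2 := hcc
    have hconf := hT c hc c' hc' hne
    obtain ⟨s, hs, hsc, hsu⟩ := h3 c hc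
    obtain ⟨t, ht, htc, htu⟩ := h3 c' hc'
    subst hsc htc
    have hst : s ≠ t := by rintro rfl; exact hne rfl
    have hxx : Z s = Z t := hZ.inj s hs t ht hcc' (hsu.trans htu.symm)
    have n1 : gX s ≠ gX t := fun h => hconf (Or.inr (Or.inr ⟨hcc', h⟩))
    have n2 : gY s ≠ gY t := fun h => hconf (Or.inr (Or.inl ⟨h, hcc'⟩))
    show (gX s < gX t ∧ gY s < gY t) ∨ (gX t < gX s ∧ gY t < gY s)
    rcases pZ s hs t ht hst hxx with h | h
    · have := hX.mono s hs t ht h.1.le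
      have := hY.mono s hs t ht h.2.le
      omega
    · have := hX.mono t ht s hs h.1.le
      have := hY.mono t ht s hs h.2.le
      omega

/-- Averaging over the indices: the number of full light cells is small. -/
theorem light_bound {S : Finset ι} {X Y Z : ι → ℕ} {k mX mY mZ : ℕ}
    {gX rX gY rY gZ rZ : ι → ℕ} (hCS : CS S X Y Z)
    (hX : Grp S X k mX gX rX) (hY : Grp S Y k mY gY rY) (hZ : Grp S Z k mZ gZ rZ)
    (pmX : 0 < mX) (pmY : 0 < mY) (pmZ : 0 < mZ)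
    (F : ℝ) (hF : ∀ Q : Finset (ℕ × ℕ × ℕ),
      (∀ c ∈ Q, c.1 < k ∧ c.2.1 < k ∧ c.2.2 < k) →
      CS Q (fun c => c.1) (fun c => c.2.1) (fun c => c.2.2) → (Q.card : ℝ) ≤ F)
    (c₀ : ℝ) (hc₀ : 0 ≤ c₀) (D : ℕ)
    (P : Finset (ℕ × ℕ × ℕ)) (hP : ∀ c ∈ P, c ∈ S.image (fun s => (gX s, gY s, gZ s)))
    (f1 : ∀ c ∈ P, c₀ * mX ≤ nv (S.filter (fun s => (gX s, gY s, gZ s) = c)) X)
    (f2 : ∀ c ∈ P, c₀ * mY ≤ nv (S.filter (fun s => (gX s, gY s, gZ s) = c)) Y)
    (f3 : ∀ c ∈ P, c₀ * mZ ≤ nv (S.filter (fun s => (gX s, gY s, gZ s) = c)) Z)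
    (d1 : ∀ t ∈ P, (P.filter (fun c => c.1 = t.1 ∧ c.2.1 = t.2.1)).card ≤ D)
    (d2 : ∀ t ∈ P, (P.filter (fun c => c.2.1 = t.2.1 ∧ c.2.2 = t.2.2)).card ≤ D)
    (d3 : ∀ t ∈ P, (P.filter (fun c => c.2.2 = t.2.2 ∧ c.1 = t.1)).card ≤ D) :
    c₀ ^ 3 * (P.card : ℝ) ≤ 3 * D * F := by
  classical
  let Sc : ℕ × ℕ × ℕ → Finset ι := fun c => S.filter (fun s => (gX s, gY s, gZ s) = c)
  let A : ℕ × ℕ × ℕ → Finset ℕ := fun c => (Sc c).image rX
  let B : ℕ × ℕ × ℕ → Finset ℕ := fun c => (Sc c).image rY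
  let C : ℕ × ℕ × ℕ → Finset ℕ := fun c => (Sc c).image rZ
  have hA : ∀ c ∈ P, c₀ * mX ≤ ((A c).card : ℝ) := by
    intro c hc
    refine (f1 c hc).trans ?_
    have : nv (Sc c) X ≤ (A c).card := by
      refine card_image_le_of_factor (Sc c) rX X ?_
      intro s hs t ht hst
      obtain ⟨hs1, hs2⟩ := mem_filter.1 hs
      obtain ⟨ht1, ht2⟩ := mem_filter.1 ht
      exact hX.inj s hs1 t ht1 (congrArg Prod.fst (hs2.trans ht2.symm)) hst
    exact_mod_cast this
  have hB : ∀ c ∈ P, c₀ * mY ≤ ((B c).card : ℝ) := by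
    intro c hc
    refine (f2 c hc).trans ?_
    have : nv (Sc c) Y ≤ (B c).card := by
      refine card_image_le_of_factor (Sc c) rY Y ?_
      intro s hs t ht hst
      obtain ⟨hs1, hs2⟩ := mem_filter.1 hs
      obtain ⟨ht1, ht2⟩ := mem_filter.1 ht
      exact hY.inj s hs1 t ht1 (congrArg (fun p => p.2.1) (hs2.trans ht2.symm)) hst
    exact_mod_cast this
  have hC : ∀ c ∈ P, c₀ * mZ ≤ ((C c).card : ℝ) := by
    intro c hc
    refine (f3 c hc).trans ?_
    have : nv (Sc c) Z ≤ (C c).card := by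
      refine card_image_le_of_factor (Sc c) rZ Z ?_
      intro s hs t ht hst
      obtain ⟨hs1, hs2⟩ := mem_filter.1 hs
      obtain ⟨ht1, ht2⟩ := mem_filter.1 ht
      exact hZ.inj s hs1 t ht1 (congrArg (fun p => p.2.2) (hs2.trans ht2.symm)) hst
    exact_mod_cast this
  let U : Finset (ℕ × ℕ × ℕ) := (range mX) ×ˢ ((range mY) ×ˢ (range mZ))
  let Q : ℕ × ℕ × ℕ → Finset (ℕ × ℕ × ℕ) := fun u =>
    P.filter (fun c => u.1 ∈ A c ∧ u.2.1 ∈ B c ∧ u.2.2 ∈ C c)
  -- each `Q u` is small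
  have hQ : ∀ u, ((Q u).card : ℝ) ≤ 3 * D * F := by
    intro u
    obtain ⟨T, hTQ, hTcard, hTind⟩ := exists_indep (Q u) D
      (fun t ht => (card_le_card (filter_subset_filter _ (filter_subset _ _))).trans
        (d1 t (mem_filter.1 ht).1))
      (fun t ht => (card_le_card (filter_subset_filter _ (filter_subset _ _))).trans
        (d2 t (mem_filter.1 ht).1))
      (fun t ht => (card_le_card (filter_subset_filter _ (filter_subset _ _))).trans
        (d3 t (mem_filter.1 ht).1))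
    have hTF : (T.card : ℝ) ≤ F := by
      refine hF T ?_ ?_
      · intro c hc
        have hcP := (mem_filter.1 (hTQ hc)).1
        obtain ⟨s, hs, rfl⟩ := mem_image.1 (hP c hcP)
        exact ⟨hX.lt s hs, hY.lt s hs, hZ.lt s hs⟩
      · refine cs_of_indep hCS hX hY hZ u.1 u.2.1 u.2.2 T ?_ ?_ ?_ hTind
        · intro c hc
          obtain ⟨s, hs, hsu⟩ := mem_image.1 (mem_filter.1 (hTQ hc)).2.1
          exact ⟨s, (mem_filter.1 hs).1, (mem_filter.1 hs).2, hsu⟩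
        · intro c hc
          obtain ⟨s, hs, hsu⟩ := mem_image.1 (mem_filter.1 (hTQ hc)).2.2.1
          exact ⟨s, (mem_filter.1 hs).1, (mem_filter.1 hs).2, hsu⟩
        · intro c hc
          obtain ⟨s, hs, hsu⟩ := mem_image.1 (mem_filter.1 (hTQ hc)).2.2.2
          exact ⟨s, (mem_filter.1 hs).1, (mem_filter.1 hs).2, hsu⟩
    have h1 : ((Q u).card : ℝ) ≤ (T.card : ℝ) * (3 * D) := by exact_mod_cast hTcard
    have h2 : (T.card : ℝ) * (3 * D) ≤ F * (3 * D) :=
      mul_le_mul_of_nonneg_right hTF (by positivity)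
    calc ((Q u).card : ℝ) ≤ F * (3 * D) := h1.trans h2
      _ = 3 * D * F := by ring
  -- double counting
  have hcount : ∑ c ∈ P, ((A c).card * ((B c).card * (C c).card)) ≤ ∑ u ∈ U, (Q u).card := by
    have e1 : ∀ c ∈ P, (A c).card * ((B c).card * (C c).card)
        ≤ (U.filter (fun u => u.1 ∈ A c ∧ u.2.1 ∈ B c ∧ u.2.2 ∈ C c)).card := by
      intro c _
      have : (A c).card * ((B c).card * (C c).card) = ((A c) ×ˢ ((B c) ×ˢ (C c))).card := by
        rw [card_product, card_product]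
      rw [this]
      refine card_le_card ?_
      intro u hu
      rw [mem_product, mem_product] at hu
      refine mem_filter.2 ⟨?_, hu⟩
      refine mem_product.2 ⟨?_, mem_product.2 ⟨?_, ?_⟩⟩
      · obtain ⟨s, hs, hsu⟩ := mem_image.1 hu.1
        exact mem_range.2 (hsu ▸ hX.rlt s (mem_filter.1 hs).1)
      · obtain ⟨s, hs, hsu⟩ := mem_image.1 hu.2.1
        exact mem_range.2 (hsu ▸ hY.rlt s (mem_filter.1 hs).1)
      · obtain ⟨s, hs, hsu⟩ := mem_image.1 hu.2.2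
        exact mem_range.2 (hsu ▸ hZ.rlt s (mem_filter.1 hs).1)
    refine (sum_le_sum e1).trans (le_of_eq ?_)
    simp only [card_filter, Q]
    exact sum_comm
  have hU : (U.card : ℝ) = mX * (mY * mZ) := by
    simp only [U, card_product, card_range]
    push_cast
    ring
  have hsum1 : (∑ u ∈ U, ((Q u).card : ℝ)) ≤ (mX * (mY * mZ) : ℝ) * (3 * D * F) := by
    rw [← hU, ← nsmul_eq_mul]
    exact sum_le_card_nsmul _ _ _ fun u _ => hQ u
  have hsum2 : (P.card : ℝ) * ((c₀ * mX) * ((c₀ * mY) * (c₀ * mZ)))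
      ≤ ∑ c ∈ P, (((A c).card : ℝ) * ((B c).card * (C c).card)) := by
    rw [← nsmul_eq_mul]
    refine card_nsmul_le_sum _ _ _ ?_
    intro c hc
    have a1 := hA c hc
    have a2 := hB c hc
    have a3 := hC c hc
    have n1 : 0 ≤ c₀ * (mX : ℝ) := by positivity
    have n2 : 0 ≤ c₀ * (mY : ℝ) := by positivity
    have n3 : 0 ≤ c₀ * (mZ : ℝ) := by positivity
    exact mul_le_mul a1 (mul_le_mul a2 a3 n3 (n2.trans a2)) (mul_nonneg n2 n3) (n1.trans a1)
  have hsum3 : (∑ c ∈ P, (((A c).card : ℝ) * ((B c).card * (C c).card)))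
      ≤ ∑ u ∈ U, ((Q u).card : ℝ) := by exact_mod_cast hcount
  have hM : (0 : ℝ) < mX * (mY * mZ) := by positivity
  have hfin : (c₀ ^ 3 * (P.card : ℝ)) * (mX * (mY * mZ)) ≤ (3 * D * F) * (mX * (mY * mZ)) := by
    calc (c₀ ^ 3 * (P.card : ℝ)) * (mX * (mY * mZ))
        = (P.card : ℝ) * ((c₀ * mX) * ((c₀ * mY) * (c₀ * mZ))) := by ring
      _ ≤ _ := hsum2.trans (hsum3.trans hsum1)
      _ = (3 * D * F) * (mX * (mY * mZ)) := by ring
  exact le_of_mul_le_mul_right hfin hM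

end Pool.Agent.H24.GL
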