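import Pool.Agent.H24.GL.Basic

set_option autoImplicit false

namespace Pool.Agent.H24.GL

open Finset SimpleGraph SimpleGraph.TripartiteFromTriangles

/-- Ruzsa–Szemerédi bound: a pairwise comparable subset of `[k]^3` has `o(k^2)` points. -/
theorem rs_bound (η : ℝ) (hη : 0 < η) :
    ∃ k₀ : ℕ, ∀ k : ℕ, k₀ ≤ k → ∀ Q : Finset (ℕ × ℕ × ℕ),
      (∀ c ∈ Q, c.1 < k ∧ c.2.1 < k ∧ c.2.2 < k) →
      CS Q (fun c => c.1) (fun c => c.2.1) (fun c => c.2.2) →
      (Q.card : ℝ) ≤ η * (k : ℝ) ^ 2 := by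
  set ε : ℝ := η / 9 with hε
  have hεpos : 0 < ε := by positivity
  have hbpos := triangleRemovalBound_pos hεpos
  obtain ⟨k₀, hk₀⟩ := exists_nat_gt (1 / (27 * triangleRemovalBound ε))
  refine ⟨k₀ + 1, ?_⟩
  intro k hk Q hQ hCS
  by_contra hcon
  push Not at hcon
  obtain ⟨hX, hY, hZ⟩ := hCS
  let t : Finset (Fin k × Fin k × Fin k) :=
    univ.filter (fun c => ((c.1 : ℕ), (c.2.1 : ℕ), (c.2.2 : ℕ)) ∈ Q)
  have hmem : ∀ a b c : Fin k, (a, b, c) ∈ t ↔ ((a : ℕ), (b : ℕ), (c : ℕ)) ∈ Q := by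
    intro a b c
    simp [t]
  have hcard : t.card = Q.card := by
    refine card_bij (fun c _ => ((c.1 : ℕ), (c.2.1 : ℕ), (c.2.2 : ℕ))) ?_ ?_ ?_
    · intro c hc
      exact (mem_filter.1 hc).2
    · intro c _ c' _ h
      have h1 : (c.1 : ℕ) = c'.1 := congrArg Prod.fst h
      have h2 : (c.2.1 : ℕ) = c'.2.1 := congrArg (fun p => p.2.1) h
      have h3 : (c.2.2 : ℕ) = c'.2.2 := congrArg (fun p => p.2.2) h
      exact Prod.ext (Fin.ext h1) (Prod.ext (Fin.ext h2) (Fin.ext h3))
    · intro c hc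
      obtain ⟨h1, h2, h3⟩ := hQ c hc
      exact ⟨(⟨c.1, h1⟩, ⟨c.2.1, h2⟩, ⟨c.2.2, h3⟩), (hmem _ _ _).2 hc, rfl⟩
  have : ExplicitDisjoint t := by
    refine ⟨?_, ?_, ?_⟩
    · intro a b c a' h1 h2
      rw [hmem] at h1 h2
      by_contra hne
      have hne' : (a : ℕ) ≠ a' := fun h => hne (Fin.ext h)
      have := hY _ h1 _ h2 (by
        intro h
        exact hne' (congrArg Prod.fst h)) rfl
      simp at this
    · intro a b c b' h1 h2
      rw [hmem] at h1 h2
      by_contra hne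
      have hne' : (b : ℕ) ≠ b' := fun h => hne (Fin.ext h)
      have := hZ _ h1 _ h2 (by
        intro h
        exact hne' (congrArg (fun p => p.2.1) h)) rfl
      simp at this
    · intro a b c c' h1 h2
      rw [hmem] at h1 h2
      by_contra hne
      have hne' : (c : ℕ) ≠ c' := fun h => hne (Fin.ext h)
      have := hX _ h1 _ h2 (by
        intro h
        exact hne' (congrArg (fun p => p.2.2) h)) rfl
      simp at this
  have : NoAccidental t := by
    refine ⟨?_⟩
    intro a a' b b' c c' h1 h2 h3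
    rw [hmem] at h1 h2 h3
    by_contra hne
    push Not at hne
    obtain ⟨na, nb, nc⟩ := hne
    have na' : (a : ℕ) ≠ a' := fun h => na (Fin.ext h)
    have nb' : (b : ℕ) ≠ b' := fun h => nb (Fin.ext h)
    have nc' : (c : ℕ) ≠ c' := fun h => nc (Fin.ext h)
    -- `(a', b, c)` and `(a, b', c)` share `c`
    have r1 := hZ _ h1 _ h2 (by
      intro h; exact na' (congrArg Prod.fst h).symm) rfl
    -- `(a', b, c)` and `(a, b, c')` share `b`
    have r2 := hY _ h1 _ h3 (by
      intro h; exact na' (congrArg Prod.fst h).symm) rfl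
    -- `(a, b', c)` and `(a, b, c')` share `a`
    have r3 := hX _ h2 _ h3 (by
      intro h; exact nb' (congrArg (fun p => p.2.1) h).symm) rfl
    simp only at r1 r2 r3
    omega
  have hfar : (graph t).FarFromTriangleFree ε := by
    refine farFromTriangleFree t ?_
    rw [hcard]
    simp only [Fintype.card_fin]
    push_cast
    have : ε * ((k : ℝ) + k + k) ^ 2 = η * (k : ℝ) ^ 2 := by
      rw [hε]; ring
    rw [this]
    exact hcon.le
  have h := hfar.le_card_cliqueFinset
  rw [card_triangles, hcard] at h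
  have hcardV : (Fintype.card (Fin k ⊕ Fin k ⊕ Fin k) : ℝ) = 3 * k := by
    simp [Fintype.card_sum]
    ring
  rw [hcardV] at h
  have hkpos : (0 : ℝ) < k := by
    have : 0 < k := by omega
    exact_mod_cast this
  -- `|Q| ≤ k^2`
  have hQle : (Q.card : ℝ) ≤ (k : ℝ) ^ 2 := by
    have h1 := card_le_of_Pl hX
    have h2 : nv Q (fun c => c.1) ≤ k := by
      refine (card_le_card (t := range k) ?_).trans (card_range k).le
      intro x hx
      obtain ⟨c, hc, rfl⟩ := mem_image.1 hx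
      exact mem_range.2 (hQ c hc).1
    have h3 : nv Q (fun c => c.2.1) ≤ k := by
      refine (card_le_card (t := range k) ?_).trans (card_range k).le
      intro x hx
      obtain ⟨c, hc, rfl⟩ := mem_image.1 hx
      exact mem_range.2 (hQ c hc).2.1
    have h4 : Q.card ≤ k * k := h1.trans (Nat.mul_le_mul h2 h3)
    have : (Q.card : ℝ) ≤ (k : ℝ) * k := by exact_mod_cast h4
    rw [pow_two]; exact this
  have hk1 : (k₀ : ℝ) < k := by
    have : k₀ < k := by omega
    exact_mod_cast this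
  have h5 : 1 / (27 * triangleRemovalBound ε) < k := hk₀.trans hk1
  have h6 : 1 < (k : ℝ) * (27 * triangleRemovalBound ε) := by
    rwa [div_lt_iff₀ (by positivity)] at h5
  have h7 : triangleRemovalBound ε * (3 * (k : ℝ)) ^ 3 ≤ (k : ℝ) ^ 2 := h.trans hQle
  have h8 : triangleRemovalBound ε * (3 * (k : ℝ)) ^ 3
      = ((k : ℝ) * (27 * triangleRemovalBound ε)) * (k : ℝ) ^ 2 := by ring
  rw [h8] at h7
  have h9 : (1 : ℝ) * (k : ℝ) ^ 2 < ((k : ℝ) * (27 * triangleRemovalBound ε)) * (k : ℝ) ^ 2 :=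
    mul_lt_mul_of_pos_right h6 (by positivity)
  linarith

end Pool.Agent.H24.GL
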