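import Pool.Agent.H24.GL.Step
import Pool.Agent.H24.GL.RS

set_option autoImplicit false

namespace Pool.Agent.H24.GL

open Finset

/-- The exponent gain. -/
theorem exists_sigma (k : ℕ) (hk : 3 ≤ k) :
    ∃ σ : ℝ, 0 < σ ∧ σ ≤ 1 / 4 ∧
      ((k : ℝ) ^ 6) ^ σ ≤ 1 + 1 / ((k : ℝ) ^ 6) ^ 2 := by
  set K : ℝ := (k : ℝ) ^ 6 with hK
  have hkR : (3 : ℝ) ≤ k := by exact_mod_cast hk
  have hK1 : 1 < K := by
    rw [hK]
    exact one_lt_pow₀ (by linarith) (by norm_num)
  have hlogK : 0 < Real.log K := Real.log_pos hK1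
  have hKpos : 0 < K := by linarith
  have h1 : 0 < Real.log (1 + 1 / K ^ 2) := by
    refine Real.log_pos ?_
    have : 0 < 1 / K ^ 2 := by positivity
    linarith
  refine ⟨min (1 / 4) (Real.log (1 + 1 / K ^ 2) / Real.log K), ?_, min_le_left _ _, ?_⟩
  · exact lt_min (by norm_num) (div_pos h1 hlogK)
  · have h2 : K ^ (min (1 / 4) (Real.log (1 + 1 / K ^ 2) / Real.log K))
        ≤ K ^ (Real.log (1 + 1 / K ^ 2) / Real.log K) :=
      Real.rpow_le_rpow_of_exponent_le hK1.le (min_le_right _ _)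
    refine h2.trans (le_of_eq ?_)
    rw [Real.rpow_def_of_pos hKpos, mul_div_cancel₀ _ hlogK.ne', Real.exp_log]
    positivity

variable {ι : Type}

/-- The case where one of the three parameters is small. -/
theorem small_case {S : Finset ι} {X Y Z : ι → ℕ} {k : ℕ} (hCS : CS S X Y Z) (hk : 3 ≤ k)
    (ha : nv S X < k) {σ β : ℝ} (hβ : β = (2 - σ) / 3) (hσ0 : 0 < σ) (hσ1 : σ ≤ 1 / 4)
    (hkσ : ((k : ℝ) ^ 6) ^ σ ≤ 1 + 1 / ((k : ℝ) ^ 6) ^ 2) :
    (S.card : ℝ) ≤ ((nv S X : ℝ) * nv S Y * nv S Z) ^ β := by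
  have hβ0 : 0 ≤ β := by rw [hβ]; linarith
  have hkR : (3 : ℝ) ≤ k := by exact_mod_cast hk
  have hkpos : (0 : ℝ) < k := by linarith
  rcases Nat.lt_or_ge S.card 2 with hlt | h2
  · -- at most one point
    rcases S.eq_empty_or_nonempty with hemp | hne
    · rw [hemp]
      simp only [card_empty, Nat.cast_zero]
      positivity
    · have h1 : (S.card : ℝ) ≤ 1 := by
        have : S.card ≤ 1 := by omega
        exact_mod_cast this
      refine h1.trans ?_
      refine Real.one_le_rpow ?_ hβ0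
      have p1 : (1 : ℝ) ≤ nv S X := by exact_mod_cast nv_pos X hne
      have p2 : (1 : ℝ) ≤ nv S Y := by exact_mod_cast nv_pos Y hne
      have p3 : (1 : ℝ) ≤ nv S Z := by exact_mod_cast nv_pos Z hne
      calc (1 : ℝ) = 1 * 1 * 1 := by ring
        _ ≤ _ := mul_le_mul (mul_le_mul p1 p2 (by norm_num) (by positivity)) p3 (by norm_num)
          (by positivity)
  have hne : S.Nonempty := card_pos.1 (by omega)
  have p1 : (1 : ℝ) ≤ nv S X := by exact_mod_cast nv_pos X hne
  have p2 : (1 : ℝ) ≤ nv S Y := by exact_mod_cast nv_pos Y hne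
  have p3 : (1 : ℝ) ≤ nv S Z := by exact_mod_cast nv_pos Z hne
  have hak : (nv S X : ℝ) ≤ k := by exact_mod_cast ha.le
  rcases lt_or_ge ((nv S Y : ℝ) * nv S Z) ((k : ℝ) ^ 5) with hsm | hbig
  · -- bounded sets: strictness
    have hst := strict hCS h2
    set P : ℝ := (nv S X : ℝ) * nv S Y * nv S Z with hP
    set K : ℝ := (k : ℝ) ^ 6 with hK
    have hstR : (S.card : ℝ) ^ 3 + 1 ≤ P ^ 2 := by
      rw [hP]; exact_mod_cast hst
    have hP1 : 1 ≤ P := by
      rw [hP]
      calc (1 : ℝ) = 1 * 1 * 1 := by ring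
        _ ≤ _ := mul_le_mul (mul_le_mul p1 p2 (by norm_num) (by positivity)) p3 (by norm_num)
          (by positivity)
    have hPpos : 0 < P := by linarith
    have hPK : P ≤ K := by
      calc P = nv S X * ((nv S Y : ℝ) * nv S Z) := by rw [hP]; ring
        _ ≤ k * (k : ℝ) ^ 5 := mul_le_mul hak hsm.le (by positivity) (by positivity)
        _ = K := by rw [hK]; ring
    have hK1 : 1 ≤ K := hP1.trans hPK
    have hPσ : P ^ σ ≤ 1 + 1 / K ^ 2 :=
      (Real.rpow_le_rpow hPpos.le hPK hσ0.le).trans hkσ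
    have hPσpos : 0 < P ^ σ := Real.rpow_pos_of_pos hPpos _
    have h3 : (S.card : ℝ) ^ 3 ≤ P ^ (3 * β) := by
      have e1 : P ^ (3 * β) = P ^ 2 / P ^ σ := by
        rw [← Real.rpow_natCast P 2, ← Real.rpow_sub hPpos]
        congr 1
        rw [hβ]; push_cast; ring
      rw [e1, le_div_iff₀ hPσpos]
      have e2 : (S.card : ℝ) ^ 3 ≤ P ^ 2 - 1 := by linarith
      have e3 : 0 ≤ P ^ 2 - 1 := by nlinarith
      have e4 : P ^ 2 ≤ K ^ 2 := pow_le_pow_left₀ hPpos.le hPK 2
      have e5 : P ^ 2 * (1 / K ^ 2) ≤ 1 := by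
        rw [mul_one_div, div_le_one (by positivity)]; exact e4
      have e6 : 0 ≤ 1 / K ^ 2 := by positivity
      calc (S.card : ℝ) ^ 3 * P ^ σ ≤ (P ^ 2 - 1) * (1 + 1 / K ^ 2) :=
            mul_le_mul e2 hPσ hPσpos.le e3
        _ = P ^ 2 - 1 + P ^ 2 * (1 / K ^ 2) - 1 / K ^ 2 := by ring
        _ ≤ P ^ 2 := by linarith
    have h4 : P ^ (3 * β) = (P ^ β) ^ 3 := by
      rw [← Real.rpow_natCast, ← Real.rpow_mul hPpos.le]
      congr 1
      push_cast; ring
    rw [h4] at h3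
    exact le_of_pow_le_pow_left₀ (by norm_num) (by positivity) h3
  · -- unbalanced sets: the trivial bound
    have e1 := card_le_of_Pl hCS.1
    have e3 := card_le_of_Pl hCS.2.2
    have e1R : (S.card : ℝ) ≤ (nv S X : ℝ) * nv S Y := by exact_mod_cast e1
    have e3R : (S.card : ℝ) ≤ (nv S Z : ℝ) * nv S X := by exact_mod_cast e3
    set a : ℝ := ((nv S X : ℕ) : ℝ) with hadef
    set b : ℝ := ((nv S Y : ℕ) : ℝ) with hbdef
    set d : ℝ := ((nv S Z : ℕ) : ℝ) with hddef
    have hapos : 0 < a := by linarith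
    have hbpos : 0 < b := by linarith
    have hdpos : 0 < d := by linarith
    have hsq : (S.card : ℝ) ^ 2 ≤ a ^ 2 * (b * d) := by
      calc (S.card : ℝ) ^ 2 = (S.card : ℝ) * S.card := by ring
        _ ≤ (a * b) * (d * a) := mul_le_mul e1R e3R (by positivity) (by positivity)
        _ = a ^ 2 * (b * d) := by ring
    have h1 : a ^ (2 - 2 * β) ≤ (b * d) ^ (2 * β - 1) := by
      calc a ^ (2 - 2 * β) ≤ (k : ℝ) ^ (2 - 2 * β) :=
            Real.rpow_le_rpow hapos.le hak (by rw [hβ]; linarith)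
        _ ≤ (k : ℝ) ^ (5 * (2 * β - 1)) := by
            refine Real.rpow_le_rpow_of_exponent_le (by linarith) ?_
            rw [hβ]; linarith
        _ = ((k : ℝ) ^ 5) ^ (2 * β - 1) := by
            rw [← Real.rpow_natCast (k : ℝ) 5, ← Real.rpow_mul hkpos.le]
            norm_num
        _ ≤ (b * d) ^ (2 * β - 1) :=
            Real.rpow_le_rpow (by positivity) hbig (by rw [hβ]; linarith)
    have h2 : a ^ 2 * (b * d) ≤ ((a * b * d) ^ β) ^ 2 := by
      have f1 : ((a * b * d) ^ β) ^ 2 = a ^ (2 * β) * ((b * d) * (b * d) ^ (2 * β - 1)) := by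
        rw [← Real.rpow_natCast, ← Real.rpow_mul (by positivity)]
        rw [show a * b * d = a * (b * d) by ring, Real.mul_rpow hapos.le (by positivity)]
        have g1 : β * ((2 : ℕ) : ℝ) = 2 * β := by push_cast; ring
        rw [g1]
        congr 1
        rw [← Real.rpow_one_add' (by positivity)]
        · congr 1
          ring
        · have : (1 : ℝ) + (2 * β - 1) = 2 * β := by ring
          rw [this, hβ]
          linarith
      have f2 : a ^ 2 = a ^ (2 * β) * a ^ (2 - 2 * β) := by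
        rw [← Real.rpow_add hapos]
        rw [show 2 * β + (2 - 2 * β) = ((2 : ℕ) : ℝ) by push_cast; ring, Real.rpow_natCast]
      rw [f1, f2]
      calc a ^ (2 * β) * a ^ (2 - 2 * β) * (b * d)
          = a ^ (2 * β) * ((b * d) * a ^ (2 - 2 * β)) := by ring
        _ ≤ a ^ (2 * β) * ((b * d) * (b * d) ^ (2 * β - 1)) := by
            refine mul_le_mul_of_nonneg_left ?_ (by positivity)
            exact mul_le_mul_of_nonneg_left h1 (by positivity)
    exact le_of_pow_le_pow_left₀ (by norm_num) (by positivity) (hsq.trans h2)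

/-- Power saving for pairwise comparable sets. -/
theorem main_bound : ∃ σ : ℝ, 0 < σ ∧ σ ≤ 1 / 4 ∧
    ∀ (ι : Type) (X Y Z : ι → ℕ) (S : Finset ι), CS S X Y Z →
      (S.card : ℝ) ≤ ((nv S X : ℝ) * nv S Y * nv S Z) ^ ((2 - σ) / 3) := by
  obtain ⟨k₀, hk₀⟩ := rs_bound (((1 / 512 : ℝ) ^ 6) ^ 3 / (192 * 2 ^ 84)) (by positivity)
  set k := max k₀ 3 with hkdef
  have hk : 3 ≤ k := le_max_right _ _
  have hRS := hk₀ k (le_max_left _ _)
  obtain ⟨σ, hσ0, hσ1, hkσ⟩ := exists_sigma k hk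
  have hkR : (3 : ℝ) ≤ k := by exact_mod_cast hk
  have hkσ2 : (k : ℝ) ^ σ ≤ 2 := by
    calc (k : ℝ) ^ σ ≤ ((k : ℝ) ^ 6) ^ σ := by
          refine Real.rpow_le_rpow (by positivity) ?_ hσ0.le
          calc (k : ℝ) = (k : ℝ) ^ 1 := by ring
            _ ≤ (k : ℝ) ^ 6 := pow_le_pow_right₀ (by linarith) (by norm_num)
      _ ≤ 1 + 1 / ((k : ℝ) ^ 6) ^ 2 := hkσ
      _ ≤ 2 := by
          have : 1 / ((k : ℝ) ^ 6) ^ 2 ≤ 1 := by
            rw [div_le_one (by positivity)]
            exact one_le_pow₀ (one_le_pow₀ (by linarith))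
          linarith
  refine ⟨σ, hσ0, hσ1, ?_⟩
  intro ι X Y Z S
  induction S using Finset.strongInduction with
  | H S ih =>
    intro hCS
    by_cases ha : k ≤ nv S X
    · by_cases hb : k ≤ nv S Y
      · by_cases hd : k ≤ nv S Z
        · exact step hCS hk hRS ha hb hd rfl hσ0 hσ1 hkσ2
            (fun T hT => ih T hT (hCS.mono hT.subset))
        · push Not at hd
          have h := small_case hCS.rot.rot hk hd rfl hσ0 hσ1 hkσ
          rwa [show (nv S Z : ℝ) * nv S X * nv S Y = (nv S X : ℝ) * nv S Y * nv S Z by ring] at h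
      · push Not at hb
        have h := small_case hCS.rot hk hb rfl hσ0 hσ1 hkσ
        rwa [show (nv S Y : ℝ) * nv S Z * nv S X = (nv S X : ℝ) * nv S Y * nv S Z by ring] at h
    · push Not at ha
      exact small_case hCS hk ha rfl hσ0 hσ1 hkσ

end Pool.Agent.H24.GL
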