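import Pool.Agent.H24.GL.Heavy
import Pool.Agent.H24.GL.Light

set_option autoImplicit false

namespace Pool.Agent.H24.GL

open Finset

theorem small_cell {u v w β κ : ℝ} (hu : 0 ≤ u) (hv : 0 ≤ v) (hw : 0 ≤ w) (hu1 : u ≤ 1)
    (hv1 : v ≤ 1) (hw1 : w ≤ 1) (hκ : 0 ≤ κ) (hp : u * v * w ≤ κ ^ 6) (hβ : 1 / 2 ≤ β) :
    (u * v * w) ^ β ≤ κ * (u + v + w) := by
  have hp0 : 0 ≤ u * v * w := by positivity
  have hp1 : u * v * w ≤ 1 := mul_le_one₀ (mul_le_one₀ hu1 hv hv1) hw hw1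
  set m := u + v + w with hm
  have hm0 : 0 ≤ m := by positivity
  have h1 : (u * v * w) ^ β ≤ (u * v * w) ^ (1 / 2 : ℝ) :=
    Real.rpow_le_rpow_of_exponent_ge' hp0 hp1 (by norm_num) hβ
  refine h1.trans ?_
  rw [← Real.sqrt_eq_rpow]
  refine Real.sqrt_le_iff.2 ⟨by positivity, ?_⟩
  have hpm : u * v * w ≤ m ^ 3 := by
    calc u * v * w ≤ m * m * m := by
          refine mul_le_mul (mul_le_mul (by linarith) (by linarith) hv hm0) (by linarith) hw
            (by positivity)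
      _ = m ^ 3 := by ring
  have h3 : (u * v * w) ^ 3 ≤ ((κ * m) ^ 2) ^ 3 := by
    calc (u * v * w) ^ 3 = (u * v * w) * ((u * v * w) * (u * v * w)) := by ring
      _ ≤ κ ^ 6 * (m ^ 3 * m ^ 3) :=
          mul_le_mul hp (mul_le_mul hpm hpm hp0 (by positivity)) (by positivity) (by positivity)
      _ = ((κ * m) ^ 2) ^ 3 := by ring
  exact le_of_pow_le_pow_left₀ (by norm_num) (by positivity) h3

theorem heavy_card (P : Finset (ℕ × ℕ × ℕ)) (pr : ℕ × ℕ × ℕ → ℕ × ℕ) (D : ℕ) :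
    ((P.image pr).filter (fun p => D ≤ (P.filter (fun c => pr c = p)).card)).card * D
      ≤ P.card := by
  set H := (P.image pr).filter (fun p => D ≤ (P.filter (fun c => pr c = p)).card) with hH
  calc H.card * D = ∑ _p ∈ H, D := by rw [sum_const, smul_eq_mul]
    _ ≤ ∑ p ∈ H, (P.filter (fun c => pr c = p)).card :=
        sum_le_sum fun p hp => (mem_filter.1 hp).2
    _ ≤ ∑ p ∈ P.image pr, (P.filter (fun c => pr c = p)).card :=
        sum_le_sum_of_subset (filter_subset _ _)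
    _ = P.card := (card_eq_sum_card_fiberwise (fun c hc => mem_coe.2 (mem_image_of_mem pr hc))).symm

variable {ι : Type}

/-- The main recursion step: large parameters. -/
theorem step {S : Finset ι} {X Y Z : ι → ℕ} {k : ℕ} (hCS : CS S X Y Z) (hk : 3 ≤ k)
    (hRS : ∀ Q : Finset (ℕ × ℕ × ℕ),
      (∀ c ∈ Q, c.1 < k ∧ c.2.1 < k ∧ c.2.2 < k) →
      CS Q (fun c => c.1) (fun c => c.2.1) (fun c => c.2.2) →
      (Q.card : ℝ) ≤ (((1 / 512 : ℝ) ^ 6) ^ 3 / (192 * 2 ^ 84)) * (k : ℝ) ^ 2)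
    (ha : k ≤ nv S X) (hb : k ≤ nv S Y) (hd : k ≤ nv S Z)
    {σ β : ℝ} (hβ : β = (2 - σ) / 3) (hσ0 : 0 < σ) (hσ1 : σ ≤ 1 / 4) (hkσ : (k : ℝ) ^ σ ≤ 2)
    (IH : ∀ T ⊂ S, (T.card : ℝ) ≤ ((nv T X : ℝ) * nv T Y * nv T Z) ^ β) :
    (S.card : ℝ) ≤ ((nv S X : ℝ) * nv S Y * nv S Z) ^ β := by
  classical
  have hβ0 : 0 ≤ β := by rw [hβ]; linarith
  have hβ12 : 1 / 2 ≤ β := by rw [hβ]; linarith
  have hβ23 : β ≤ 2 / 3 := by rw [hβ]; linarith
  have hk0 : 0 < k := by omega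
  have hkR : (0 : ℝ) < k := by exact_mod_cast hk0
  obtain ⟨gX, rX, hX⟩ := exists_grp S X k hk0
  obtain ⟨gY, rY, hY⟩ := exists_grp S Y k hk0
  obtain ⟨gZ, rZ, hZ⟩ := exists_grp S Z k hk0
  set mX := nv S X / k + 1 with hmX
  set mY := nv S Y / k + 1 with hmY
  set mZ := nv S Z / k + 1 with hmZ
  have pmX : (0 : ℝ) < mX := by rw [hmX]; positivity
  have pmY : (0 : ℝ) < mY := by rw [hmY]; positivity
  have pmZ : (0 : ℝ) < mZ := by rw [hmZ]; positivity
  have haR : (0 : ℝ) < nv S X := by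
    have : 0 < nv S X := by omega
    exact_mod_cast this
  have hbR : (0 : ℝ) < nv S Y := by
    have : 0 < nv S Y := by omega
    exact_mod_cast this
  have hdR : (0 : ℝ) < nv S Z := by
    have : 0 < nv S Z := by omega
    exact_mod_cast this
  have hmXlt : mX < nv S X := by
    have h3 : nv S X / k ≤ nv S X / 3 := Nat.div_le_div_left hk (by norm_num)
    omega
  have hmXle : (mX : ℝ) ≤ 2 * nv S X / k := grp_size_le hk0 ha
  have hmYle : (mY : ℝ) ≤ 2 * nv S Y / k := grp_size_le hk0 hb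
  have hmZle : (mZ : ℝ) ≤ 2 * nv S Z / k := grp_size_le hk0 hd
  have hkmX : (nv S X : ℝ) ≤ k * mX := by
    have h : nv S X ≤ k * mX := by
      rw [hmX]; exact (Nat.lt_mul_div_succ _ hk0).le
    exact_mod_cast h
  have hkmY : (nv S Y : ℝ) ≤ k * mY := by
    have h : nv S Y ≤ k * mY := by
      rw [hmY]; exact (Nat.lt_mul_div_succ _ hk0).le
    exact_mod_cast h
  have hkmZ : (nv S Z : ℝ) ≤ k * mZ := by
    have h : nv S Z ≤ k * mZ := by
      rw [hmZ]; exact (Nat.lt_mul_div_succ _ hk0).le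
    exact_mod_cast h
  -- cells
  set cell : ι → ℕ × ℕ × ℕ := fun s => (gX s, gY s, gZ s) with hcell
  set Sc : ℕ × ℕ × ℕ → Finset ι := fun c => S.filter (fun s => cell s = c) with hSc
  set C : Finset (ℕ × ℕ × ℕ) := S.image cell with hC
  set κ : ℝ := 1 / 512 with hκ
  set c₀ : ℝ := κ ^ 6 with hc₀
  have hc₀pos : 0 < c₀ := by rw [hc₀, hκ]; norm_num
  set D : ℕ := 2 ^ 84 with hD
  set P := C.filter (fun c => c₀ * mX ≤ (nv (Sc c) X : ℝ) ∧ c₀ * mY ≤ (nv (Sc c) Y : ℝ) ∧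
    c₀ * mZ ≤ (nv (Sc c) Z : ℝ)) with hP
  -- values in the cells
  have hSsub : ∀ c, Sc c ⊆ S := fun c => filter_subset _ _
  have hcX : ∀ c, nv (Sc c) X ≤ mX := fun c => nv_le_of_const hX (hSsub c) fun s hs t ht =>
    congrArg Prod.fst ((mem_filter.1 hs).2.trans (mem_filter.1 ht).2.symm)
  have hcY : ∀ c, nv (Sc c) Y ≤ mY := fun c => nv_le_of_const hY (hSsub c) fun s hs t ht =>
    congrArg (fun p => p.2.1) ((mem_filter.1 hs).2.trans (mem_filter.1 ht).2.symm)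
  have hcZ : ∀ c, nv (Sc c) Z ≤ mZ := fun c => nv_le_of_const hZ (hSsub c) fun s hs t ht =>
    congrArg (fun p => p.2.2) ((mem_filter.1 hs).2.trans (mem_filter.1 ht).2.symm)
  have hsumX : ∀ E : Finset (ℕ × ℕ × ℕ),
      (∑ c ∈ E, (nv (Sc c) X : ℝ)) ≤ 2 * (k : ℝ) ^ 2 * mX := by
    intro E
    have h1 := sum_nv_le S X cell (fun s => (X s, gY s, gZ s))
      (by
        intro s hs t ht hst
        have e1 : X s = X t := congrArg Prod.fst hst
        have e2 : gY s = gY t := congrArg (fun p => p.2.1) hst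
        have e3 : gZ s = gZ t := congrArg (fun p => p.2.2) hst
        have e4 : gX s = gX t := hX.congr hs ht e1
        refine ⟨?_, e1⟩
        show (gX s, gY s, gZ s) = (gX t, gY t, gZ t)
        rw [e2, e3, e4]) E
    have h2 := h1.trans (card_W (X := Y) (Y := Z) (Z := X) hCS.1 hY hZ)
    have h3 : (∑ c ∈ E, (nv (Sc c) X : ℝ)) ≤ 2 * k * nv S X := by exact_mod_cast h2
    calc (∑ c ∈ E, (nv (Sc c) X : ℝ)) ≤ 2 * k * nv S X := h3
      _ ≤ 2 * k * (k * mX) := mul_le_mul_of_nonneg_left hkmX (by positivity)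
      _ = 2 * (k : ℝ) ^ 2 * mX := by ring
  have hsumY : ∀ E : Finset (ℕ × ℕ × ℕ),
      (∑ c ∈ E, (nv (Sc c) Y : ℝ)) ≤ 2 * (k : ℝ) ^ 2 * mY := by
    intro E
    have h1 := sum_nv_le S Y cell (fun s => (Y s, gZ s, gX s))
      (by
        intro s hs t ht hst
        have e1 : Y s = Y t := congrArg Prod.fst hst
        have e2 : gZ s = gZ t := congrArg (fun p => p.2.1) hst
        have e3 : gX s = gX t := congrArg (fun p => p.2.2) hst
        have e4 : gY s = gY t := hY.congr hs ht e1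
        refine ⟨?_, e1⟩
        show (gX s, gY s, gZ s) = (gX t, gY t, gZ t)
        rw [e2, e3, e4]) E
    have h2 := h1.trans (card_W (X := Z) (Y := X) (Z := Y) hCS.2.1 hZ hX)
    have h3 : (∑ c ∈ E, (nv (Sc c) Y : ℝ)) ≤ 2 * k * nv S Y := by exact_mod_cast h2
    calc (∑ c ∈ E, (nv (Sc c) Y : ℝ)) ≤ 2 * k * nv S Y := h3
      _ ≤ 2 * k * (k * mY) := mul_le_mul_of_nonneg_left hkmY (by positivity)
      _ = 2 * (k : ℝ) ^ 2 * mY := by ring
  have hsumZ : ∀ E : Finset (ℕ × ℕ × ℕ),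
      (∑ c ∈ E, (nv (Sc c) Z : ℝ)) ≤ 2 * (k : ℝ) ^ 2 * mZ := by
    intro E
    have h1 := sum_nv_le S Z cell (fun s => (Z s, gX s, gY s))
      (by
        intro s hs t ht hst
        have e1 : Z s = Z t := congrArg Prod.fst hst
        have e2 : gX s = gX t := congrArg (fun p => p.2.1) hst
        have e3 : gY s = gY t := congrArg (fun p => p.2.2) hst
        have e4 : gZ s = gZ t := hZ.congr hs ht e1
        refine ⟨?_, e1⟩
        show (gX s, gY s, gZ s) = (gX t, gY t, gZ t)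
        rw [e2, e3, e4]) E
    have h2 := h1.trans (card_W (X := X) (Y := Y) (Z := Z) hCS.2.2 hX hY)
    have h3 : (∑ c ∈ E, (nv (Sc c) Z : ℝ)) ≤ 2 * k * nv S Z := by exact_mod_cast h2
    calc (∑ c ∈ E, (nv (Sc c) Z : ℝ)) ≤ 2 * k * nv S Z := h3
      _ ≤ 2 * k * (k * mZ) := mul_le_mul_of_nonneg_left hkmZ (by positivity)
      _ = 2 * (k : ℝ) ^ 2 * mZ := by ring
  -- `|P| c₀ ≤ 2 k²`
  have hPcard : (P.card : ℝ) * c₀ ≤ 2 * (k : ℝ) ^ 2 := by
    have h1 : (P.card : ℝ) * (c₀ * mX) ≤ 2 * (k : ℝ) ^ 2 * mX := by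
      calc (P.card : ℝ) * (c₀ * mX) = ∑ _c ∈ P, c₀ * (mX : ℝ) := by
            rw [sum_const, nsmul_eq_mul]
        _ ≤ ∑ c ∈ P, (nv (Sc c) X : ℝ) := sum_le_sum fun c hc => (mem_filter.1 hc).2.1
        _ ≤ 2 * (k : ℝ) ^ 2 * mX := hsumX P
    have h2 : ((P.card : ℝ) * c₀) * mX ≤ (2 * (k : ℝ) ^ 2) * mX := by
      calc ((P.card : ℝ) * c₀) * mX = (P.card : ℝ) * (c₀ * mX) := by ring
        _ ≤ _ := h1
    exact le_of_mul_le_mul_right h2 pmX
  -- heavy columns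
  set p1 : ℕ × ℕ × ℕ → ℕ × ℕ := fun c => (c.1, c.2.1) with hp1
  set p2 : ℕ × ℕ × ℕ → ℕ × ℕ := fun c => (c.2.1, c.2.2) with hp2
  set p3 : ℕ × ℕ × ℕ → ℕ × ℕ := fun c => (c.2.2, c.1) with hp3
  set H1 := (P.image p1).filter (fun p => D ≤ (P.filter (fun c => p1 c = p)).card) with hH1
  set H2 := (P.image p2).filter (fun p => D ≤ (P.filter (fun c => p2 c = p)).card) with hH2
  set H3 := (P.image p3).filter (fun p => D ≤ (P.filter (fun c => p3 c = p)).card) with hH3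
  have hHcard : ∀ H : Finset (ℕ × ℕ), H.card * D ≤ P.card →
      (H.card : ℝ) * 2 ^ 30 ≤ 2 * (k : ℝ) ^ 2 := by
    intro H hH
    have h1 : (H.card : ℝ) * 2 ^ 84 ≤ P.card := by
      have h0 : (H.card : ℝ) * (D : ℝ) ≤ (P.card : ℝ) := by
        rw [← Nat.cast_mul]
        exact Nat.cast_le.2 hH
      have e : (D : ℝ) = 2 ^ 84 := by rw [hD]; norm_num
      rwa [e] at h0
    have h2 : (H.card : ℝ) * 2 ^ 84 * c₀ ≤ 2 * (k : ℝ) ^ 2 :=
      (mul_le_mul_of_nonneg_right h1 hc₀pos.le).trans hPcard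
    have h3 : (H.card : ℝ) * 2 ^ 84 * c₀ = (H.card : ℝ) * 2 ^ 30 := by
      rw [hc₀, hκ, mul_assoc]
      norm_num
    rwa [h3] at h2
  have hH1c := hHcard H1 (heavy_card P p1 D)
  have hH2c := hHcard H2 (heavy_card P p2 D)
  have hH3c := hHcard H3 (heavy_card P p3 D)
  set V : ℝ := ((nv S X : ℝ) * nv S Y * nv S Z) ^ β with hV
  have hVpos : 0 < V := by rw [hV]; positivity
  have s1 : ∑ p ∈ H1, ((S.filter (fun s => (gX s, gY s) = p)).card : ℝ) ≤ 1 / 32 * V :=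
    heavy_sum hCS.2.2 hk hX hY ha hb (by omega) hβ hσ0 hσ1 hkσ IH H1 hH1c
  have s2 : ∑ p ∈ H2, ((S.filter (fun s => (gY s, gZ s) = p)).card : ℝ) ≤ 1 / 32 * V := by
    have h := heavy_sum (X := Y) (Y := Z) (Z := X) hCS.1 hk hY hZ hb hd (by omega) hβ hσ0 hσ1 hkσ
      (fun T hT => by
        have := IH T hT
        rwa [show (nv T X : ℝ) * nv T Y * nv T Z = (nv T Y : ℝ) * nv T Z * nv T X by ring]
          at this) H2 hH2c
    rwa [show (nv S Y : ℝ) * nv S Z * nv S X = (nv S X : ℝ) * nv S Y * nv S Z by ring] at h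
  have s3 : ∑ p ∈ H3, ((S.filter (fun s => (gZ s, gX s) = p)).card : ℝ) ≤ 1 / 32 * V := by
    have h := heavy_sum (X := Z) (Y := X) (Z := Y) hCS.2.1 hk hZ hX hd ha (by omega) hβ hσ0 hσ1 hkσ
      (fun T hT => by
        have := IH T hT
        rwa [show (nv T X : ℝ) * nv T Y * nv T Z = (nv T Z : ℝ) * nv T X * nv T Y by ring]
          at this) H3 hH3c
    rwa [show (nv S Z : ℝ) * nv S X * nv S Y = (nv S X : ℝ) * nv S Y * nv S Z by ring] at h
  -- cells: the IH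
  have hIHc : ∀ c, ((Sc c).card : ℝ) ≤ ((nv (Sc c) X : ℝ) * nv (Sc c) Y * nv (Sc c) Z) ^ β := by
    intro c
    refine IH (Sc c) (Finset.ssubset_iff_subset_ne.2 ⟨hSsub c, ?_⟩)
    intro h
    have := hcX c
    rw [h] at this
    omega
  set M : ℝ := ((mX : ℝ) * mY * mZ) ^ β with hM
  have hMpos : 0 < M := by rw [hM]; positivity
  -- `M k² ≤ 8 V`
  have hMV : M * (k : ℝ) ^ 2 ≤ 8 * V := by
    have h1 : M ≤ (8 * ((nv S X : ℝ) * nv S Y * nv S Z) / (k : ℝ) ^ 3) ^ β := by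
      refine Real.rpow_le_rpow (by positivity) ?_ hβ0
      calc (mX : ℝ) * mY * mZ ≤ (2 * nv S X / k) * (2 * nv S Y / k) * (2 * nv S Z / k) :=
            mul_le_mul (mul_le_mul hmXle hmYle (by positivity) (by positivity)) hmZle
              (by positivity) (by positivity)
        _ = 8 * ((nv S X : ℝ) * nv S Y * nv S Z) / (k : ℝ) ^ 3 := by ring
    have h2 : (8 * ((nv S X : ℝ) * nv S Y * nv S Z) / (k : ℝ) ^ 3) ^ β
        = 8 ^ β * V / (k : ℝ) ^ (3 * β) := by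
      rw [Real.div_rpow (by positivity) (by positivity), Real.mul_rpow (by norm_num) (by positivity)]
      congr 1
      rw [← Real.rpow_natCast, ← Real.rpow_mul hkR.le]
      norm_num
    have h3 : (8 : ℝ) ^ β ≤ 4 := by
      calc (8 : ℝ) ^ β ≤ 8 ^ (2 / 3 : ℝ) := Real.rpow_le_rpow_of_exponent_le (by norm_num) hβ23
        _ = 4 := by
          have e8 : (8 : ℝ) = 2 ^ (3 : ℝ) := by norm_num
          rw [e8, ← Real.rpow_mul (by norm_num)]
          norm_num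
    have h4 : (k : ℝ) ^ 2 / (k : ℝ) ^ (3 * β) = (k : ℝ) ^ σ := by
      rw [← Real.rpow_natCast (k : ℝ) 2, ← Real.rpow_sub hkR]
      congr 1
      rw [hβ]; push_cast; ring
    calc M * (k : ℝ) ^ 2 ≤ (8 ^ β * V / (k : ℝ) ^ (3 * β)) * (k : ℝ) ^ 2 := by
          rw [← h2]; exact mul_le_mul_of_nonneg_right h1 (by positivity)
      _ = 8 ^ β * V * ((k : ℝ) ^ 2 / (k : ℝ) ^ (3 * β)) := by ring
      _ = 8 ^ β * V * (k : ℝ) ^ σ := by rw [h4]
      _ ≤ 4 * V * 2 := by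
          refine mul_le_mul (mul_le_mul_of_nonneg_right h3 hVpos.le) hkσ (by positivity)
            (by positivity)
      _ = 8 * V := by ring
  -- non full cells
  have s4 : ∑ c ∈ C \ P, ((Sc c).card : ℝ) ≤ 3 / 32 * V := by
    have hone : ∀ c ∈ C \ P, ((Sc c).card : ℝ) ≤ M * (κ * ((nv (Sc c) X : ℝ) / mX
        + (nv (Sc c) Y : ℝ) / mY + (nv (Sc c) Z : ℝ) / mZ)) := by
      intro c hc
      obtain ⟨hcC, hcP⟩ := mem_sdiff.1 hc
      have hnot : ¬ (c₀ * mX ≤ (nv (Sc c) X : ℝ) ∧ c₀ * mY ≤ (nv (Sc c) Y : ℝ) ∧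
          c₀ * mZ ≤ (nv (Sc c) Z : ℝ)) := fun h => hcP (mem_filter.2 ⟨hcC, h⟩)
      set u : ℝ := (nv (Sc c) X : ℝ) / mX with hu
      set v : ℝ := (nv (Sc c) Y : ℝ) / mY with hv
      set w : ℝ := (nv (Sc c) Z : ℝ) / mZ with hw
      have u0 : 0 ≤ u := by positivity
      have v0 : 0 ≤ v := by positivity
      have w0 : 0 ≤ w := by positivity
      have u1 : u ≤ 1 := by
        rw [hu, div_le_one pmX]; exact_mod_cast hcX c
      have v1 : v ≤ 1 := by
        rw [hv, div_le_one pmY]; exact_mod_cast hcY c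
      have w1 : w ≤ 1 := by
        rw [hw, div_le_one pmZ]; exact_mod_cast hcZ c
      have hprod : u * v * w ≤ κ ^ 6 := by
        rw [← hc₀]
        by_cases q1 : c₀ * mX ≤ (nv (Sc c) X : ℝ)
        · by_cases q2 : c₀ * mY ≤ (nv (Sc c) Y : ℝ)
          · have q3 : ¬ (c₀ * mZ ≤ (nv (Sc c) Z : ℝ)) := fun q3 => hnot ⟨q1, q2, q3⟩
            push Not at q3
            have hwlt : w ≤ c₀ := by
              rw [hw, div_le_iff₀ pmZ]; exact q3.le
            calc u * v * w ≤ 1 * w :=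
                  mul_le_mul_of_nonneg_right (mul_le_one₀ u1 v0 v1) w0
              _ ≤ c₀ := by linarith
          · push Not at q2
            have hvlt : v ≤ c₀ := by
              rw [hv, div_le_iff₀ pmY]; exact q2.le
            calc u * v * w = (u * w) * v := by ring
              _ ≤ 1 * v := mul_le_mul_of_nonneg_right (mul_le_one₀ u1 w0 w1) v0
              _ ≤ c₀ := by linarith
        · push Not at q1
          have hult : u ≤ c₀ := by
            rw [hu, div_le_iff₀ pmX]; exact q1.le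
          calc u * v * w = (v * w) * u := by ring
            _ ≤ 1 * u := mul_le_mul_of_nonneg_right (mul_le_one₀ v1 w0 w1) u0
            _ ≤ c₀ := by linarith
      have hsc := small_cell u0 v0 w0 u1 v1 w1 (by rw [hκ]; norm_num) hprod hβ12
      have heq : (nv (Sc c) X : ℝ) * nv (Sc c) Y * nv (Sc c) Z = (mX * mY * mZ) * (u * v * w) := by
        rw [hu, hv, hw]
        field_simp
      calc ((Sc c).card : ℝ) ≤ _ := hIHc c
        _ = M * (u * v * w) ^ β := by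
            rw [heq, Real.mul_rpow (by positivity) (by positivity)]
        _ ≤ M * (κ * (u + v + w)) := mul_le_mul_of_nonneg_left hsc hMpos.le
    have hsumdiv : ∀ (f : ℕ × ℕ × ℕ → ℝ) (m : ℝ), 0 < m →
        (∑ c ∈ C \ P, f c) ≤ 2 * (k : ℝ) ^ 2 * m → (∑ c ∈ C \ P, f c / m) ≤ 2 * (k : ℝ) ^ 2 := by
      intro f m hm hf
      rw [← sum_div, div_le_iff₀ hm]
      exact hf
    calc ∑ c ∈ C \ P, ((Sc c).card : ℝ)
        ≤ ∑ c ∈ C \ P, M * (κ * ((nv (Sc c) X : ℝ) / mX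
        + (nv (Sc c) Y : ℝ) / mY + (nv (Sc c) Z : ℝ) / mZ)) := sum_le_sum hone
      _ = M * (κ * ((∑ c ∈ C \ P, (nv (Sc c) X : ℝ) / mX)
          + (∑ c ∈ C \ P, (nv (Sc c) Y : ℝ) / mY) + ∑ c ∈ C \ P, (nv (Sc c) Z : ℝ) / mZ)) := by
          rw [← mul_sum, ← mul_sum, sum_add_distrib, sum_add_distrib]
      _ ≤ M * (κ * (2 * (k : ℝ) ^ 2 + 2 * (k : ℝ) ^ 2 + 2 * (k : ℝ) ^ 2)) := by
          refine mul_le_mul_of_nonneg_left ?_ hMpos.le
          refine mul_le_mul_of_nonneg_left ?_ (by rw [hκ]; norm_num)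
          have e1 := hsumdiv _ _ pmX (hsumX (C \ P))
          have e2 := hsumdiv _ _ pmY (hsumY (C \ P))
          have e3 := hsumdiv _ _ pmZ (hsumZ (C \ P))
          linarith
      _ = (6 * κ) * (M * (k : ℝ) ^ 2) := by ring
      _ ≤ (6 * κ) * (8 * V) := mul_le_mul_of_nonneg_left hMV (by rw [hκ]; norm_num)
      _ = 3 / 32 * V := by rw [hκ]; ring
  -- light full cells
  set PL := P.filter (fun c => p1 c ∉ H1 ∧ p2 c ∉ H2 ∧ p3 c ∉ H3) with hPL
  have hdeg : ∀ (pr : ℕ × ℕ × ℕ → ℕ × ℕ) (t : ℕ × ℕ × ℕ), t ∈ P →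
      pr t ∉ (P.image pr).filter (fun p => D ≤ (P.filter (fun c => pr c = p)).card) →
      (PL.filter (fun c => pr c = pr t)).card ≤ D := by
    intro pr t ht hnot
    have h1 : (P.filter (fun c => pr c = pr t)).card < D := by
      by_contra hcon
      push Not at hcon
      exact hnot (mem_filter.2 ⟨mem_image_of_mem pr ht, hcon⟩)
    exact (card_le_card (filter_subset_filter _ (filter_subset _ _))).trans h1.le
  have hPLcard : c₀ ^ 3 * (PL.card : ℝ) ≤ 3 * D * ((c₀ ^ 3 / (192 * 2 ^ 84)) * (k : ℝ) ^ 2) := by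
    refine light_bound hCS hX hY hZ (Nat.succ_pos _) (Nat.succ_pos _) (Nat.succ_pos _) _ hRS c₀
      hc₀pos.le D PL
      ?_ ?_ ?_ ?_ ?_ ?_ ?_
    · intro c hc
      exact (mem_filter.1 (mem_filter.1 hc).1).1
    · intro c hc
      exact (mem_filter.1 (mem_filter.1 hc).1).2.1
    · intro c hc
      exact (mem_filter.1 (mem_filter.1 hc).1).2.2.1
    · intro c hc
      exact (mem_filter.1 (mem_filter.1 hc).1).2.2.2
    · intro t ht
      obtain ⟨htP, htn, _, _⟩ := mem_filter.1 ht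
      refine (card_le_card ?_).trans (hdeg p1 t htP htn)
      intro c hc
      obtain ⟨hc1, hc2, hc3⟩ := mem_filter.1 hc
      exact mem_filter.2 ⟨hc1, by show (c.1, c.2.1) = (t.1, t.2.1); rw [hc2, hc3]⟩
    · intro t ht
      obtain ⟨htP, _, htn, _⟩ := mem_filter.1 ht
      refine (card_le_card ?_).trans (hdeg p2 t htP htn)
      intro c hc
      obtain ⟨hc1, hc2, hc3⟩ := mem_filter.1 hc
      exact mem_filter.2 ⟨hc1, by show (c.2.1, c.2.2) = (t.2.1, t.2.2); rw [hc2, hc3]⟩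
    · intro t ht
      obtain ⟨htP, _, _, htn⟩ := mem_filter.1 ht
      refine (card_le_card ?_).trans (hdeg p3 t htP htn)
      intro c hc
      obtain ⟨hc1, hc2, hc3⟩ := mem_filter.1 hc
      exact mem_filter.2 ⟨hc1, by show (c.2.2, c.1) = (t.2.2, t.1); rw [hc2, hc3]⟩
  have hPLcard' : (PL.card : ℝ) ≤ 1 / 64 * (k : ℝ) ^ 2 := by
    have h1 : 3 * (D : ℝ) * ((c₀ ^ 3 / (192 * 2 ^ 84)) * (k : ℝ) ^ 2)
        = c₀ ^ 3 * (1 / 64 * (k : ℝ) ^ 2) := by
      rw [hD]; push_cast; ring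
    rw [h1] at hPLcard
    exact le_of_mul_le_mul_left hPLcard (by positivity)
  have s5 : ∑ c ∈ PL, ((Sc c).card : ℝ) ≤ 1 / 8 * V := by
    have hone : ∀ c ∈ PL, ((Sc c).card : ℝ) ≤ M := by
      intro c _
      refine (hIHc c).trans ?_
      refine Real.rpow_le_rpow (by positivity) ?_ hβ0
      have a1 : (nv (Sc c) X : ℝ) ≤ mX := by exact_mod_cast hcX c
      have a2 : (nv (Sc c) Y : ℝ) ≤ mY := by exact_mod_cast hcY c
      have a3 : (nv (Sc c) Z : ℝ) ≤ mZ := by exact_mod_cast hcZ c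
      exact mul_le_mul (mul_le_mul a1 a2 (by positivity) (by positivity)) a3 (by positivity)
        (by positivity)
    calc ∑ c ∈ PL, ((Sc c).card : ℝ) ≤ PL.card • M := sum_le_card_nsmul _ _ _ hone
      _ = (PL.card : ℝ) * M := nsmul_eq_mul _ _
      _ ≤ (1 / 64 * (k : ℝ) ^ 2) * M := mul_le_mul_of_nonneg_right hPLcard' hMpos.le
      _ = 1 / 64 * (M * (k : ℝ) ^ 2) := by ring
      _ ≤ 1 / 64 * (8 * V) := mul_le_mul_of_nonneg_left hMV (by norm_num)
      _ = 1 / 8 * V := by ring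
  -- covering
  have hcover : S ⊆ (((H1.biUnion (fun p => S.filter (fun s => (gX s, gY s) = p)) ∪
      H2.biUnion (fun p => S.filter (fun s => (gY s, gZ s) = p))) ∪
      H3.biUnion (fun p => S.filter (fun s => (gZ s, gX s) = p))) ∪
      (C \ P).biUnion Sc) ∪ PL.biUnion Sc := by
    intro s hs
    have hsC : cell s ∈ C := mem_image_of_mem cell hs
    have hsS : s ∈ Sc (cell s) := mem_filter.2 ⟨hs, rfl⟩
    by_cases q1 : (gX s, gY s) ∈ H1
    · refine mem_union_left _ (mem_union_left _ (mem_union_left _ (mem_union_left _ ?_)))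
      exact mem_biUnion.2 ⟨_, q1, mem_filter.2 ⟨hs, rfl⟩⟩
    by_cases q2 : (gY s, gZ s) ∈ H2
    · refine mem_union_left _ (mem_union_left _ (mem_union_left _ (mem_union_right _ ?_)))
      exact mem_biUnion.2 ⟨_, q2, mem_filter.2 ⟨hs, rfl⟩⟩
    by_cases q3 : (gZ s, gX s) ∈ H3
    · refine mem_union_left _ (mem_union_left _ (mem_union_right _ ?_))
      exact mem_biUnion.2 ⟨_, q3, mem_filter.2 ⟨hs, rfl⟩⟩
    by_cases q4 : cell s ∈ P
    · refine mem_union_right _ (mem_biUnion.2 ⟨cell s, ?_, hsS⟩)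
      exact mem_filter.2 ⟨q4, q1, q2, q3⟩
    · refine mem_union_left _ (mem_union_right _ (mem_biUnion.2 ⟨cell s, ?_, hsS⟩))
      exact mem_sdiff.2 ⟨hsC, q4⟩
  have hnat : S.card ≤ (((∑ p ∈ H1, (S.filter (fun s => (gX s, gY s) = p)).card +
      ∑ p ∈ H2, (S.filter (fun s => (gY s, gZ s) = p)).card) +
      ∑ p ∈ H3, (S.filter (fun s => (gZ s, gX s) = p)).card) +
      ∑ c ∈ C \ P, (Sc c).card) + ∑ c ∈ PL, (Sc c).card := by
    refine (card_le_card hcover).trans ?_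
    refine (card_union_le _ _).trans (Nat.add_le_add ?_ card_biUnion_le)
    refine (card_union_le _ _).trans (Nat.add_le_add ?_ card_biUnion_le)
    refine (card_union_le _ _).trans (Nat.add_le_add ?_ card_biUnion_le)
    exact (card_union_le _ _).trans (Nat.add_le_add card_biUnion_le card_biUnion_le)
  have hreal : (S.card : ℝ) ≤ (((∑ p ∈ H1, ((S.filter (fun s => (gX s, gY s) = p)).card : ℝ) +
      ∑ p ∈ H2, ((S.filter (fun s => (gY s, gZ s) = p)).card : ℝ)) +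
      ∑ p ∈ H3, ((S.filter (fun s => (gZ s, gX s) = p)).card : ℝ)) +
      ∑ c ∈ C \ P, ((Sc c).card : ℝ)) + ∑ c ∈ PL, ((Sc c).card : ℝ) := by
    exact_mod_cast hnat
  linarith

end Pool.Agent.H24.GL
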